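import Pool.Agent.H567R2.MMF.Base

namespace H567MM

open MeasureTheory Filter Topology

theorem coc_add {X G : Type*} [CommMonoid G] (S : X → X) (φ : X → G) (m n : ℕ) (x : X) :
    coc S φ (m + n) x = coc S φ m x * coc S φ n (S^[m] x) := by
  induction n with
  | zero => simp [coc]
  | succ n ih =>
    rw [← add_assoc]
    show coc S φ (m + n) x * φ (S^[m + n] x) =
      coc S φ m x * (coc S φ n (S^[m] x) * φ (S^[n] (S^[m] x)))
    rw [ih, mul_assoc, add_comm m n, Function.iterate_add_apply]

theorem coc_measurable {X G : Type*} [MeasurableSpace X] [CommMonoid G] [Countable G]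
    [MeasurableSpace G] [DiscreteMeasurableSpace G] (S : X → X) (hS : Measurable S) (φ : X → G)
    (hφ : Measurable φ) (n : ℕ) : Measurable (coc S φ n) := by
  induction n with
  | zero => exact measurable_const
  | succ n ih =>
    have h : Measurable (fun x => (coc S φ n x, φ (S^[n] x))) :=
      ih.prodMk (hφ.comp (hS.iterate n))
    exact (measurable_of_countable (fun p : G × G => p.1 * p.2)).comp h

theorem skew_iterate {X R M : Type*} [CommRing R] [AddCommGroup M] [Module R M] (S : X → X)
    (φ : X → Rˣ) (n : ℕ) (x : X) (y : Dual M) :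
    (skew S φ)^[n] (x, y) = (S^[n] x, act (coc S φ n x) y) := by
  induction n with
  | zero =>
    refine Prod.ext rfl ?_
    refine DFunLike.ext _ _ fun m => ?_
    simp [act, coc]
  | succ n ih =>
    rw [Function.iterate_succ_apply', ih]
    refine Prod.ext (Function.iterate_succ_apply' S n x).symm ?_
    refine DFunLike.ext _ _ fun m => ?_
    show y (((coc S φ n x : Rˣ) : R) • ((φ (S^[n] x) : R) • m)) =
      y (((coc S φ n x * φ (S^[n] x) : Rˣ) : R) • m)
    rw [smul_smul, Units.val_mul]

end H567MM
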