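import Pool.Agent.H567R2.MM.Defs

/-! Tensor functions. -/

namespace H567MM

/-- tensor functions -/
noncomputable def ten {X M : Type*} [AddCommGroup M] (A : Set X) (m : M) (z : X × Dual M) : ℂ :=
  A.indicator (fun _ => (1 : ℂ)) z.1 * ((z.2 m : Circle) : ℂ)

end H567MM
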