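import Pool.Agent.H567R2.MMF.Base

/-! ME: mixing implies ergodic; invariant functions are constant. -/

namespace H567MM

open MeasureTheory Filter Topology

theorem ergodic_of_mix {X : Type*} [MeasurableSpace X] (μ : Measure X) [IsProbabilityMeasure μ]
    (S : X → X) (hS : MeasurePreserving S μ μ) (h : MixOrd μ S 1) : Ergodic S μ := by
  refine ⟨hS, ⟨fun s hs hs' => ?_⟩⟩
  -- iterates
  have hit : ∀ n : ℕ, S^[n] ⁻¹' s = s := fun n => Function.IsFixedPt.preimage_iterate hs' n
  have hsq : μ.real s = μ.real s * μ.real s := by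
    by_contra hne
    have hpos : 0 < |μ.real s - μ.real s * μ.real s| := abs_pos.2 (sub_ne_zero.2 hne)
    obtain ⟨G, hG⟩ := h (fun _ => s) (fun _ => hs) _ hpos
    have := hG ![0, G] rfl (by
      intro j
      fin_cases j
      simp)
    have h1 : (⋂ j : Fin (1 + 1), S^[(![0, G] : Fin (1 + 1) → ℕ) j] ⁻¹' s) = s := by
      have : ∀ j : Fin (1 + 1), S^[(![0, G] : Fin (1 + 1) → ℕ) j] ⁻¹' s = s := fun j => hit _
      simp only [this]
      exact Set.iInter_const s
    rw [h1] at this
    rw [Finset.prod_const, Finset.card_univ, Fintype.card_fin, pow_succ, pow_one] at this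
    exact lt_irrefl _ this
  have h01 : μ.real s = 0 ∨ μ.real s = 1 := by
    have : μ.real s * (1 - μ.real s) = 0 := by linarith
    rcases mul_eq_zero.1 this with h | h
    · exact Or.inl h
    · exact Or.inr (by linarith)
  rw [Filter.eventuallyConst_set']
  rcases h01 with h0 | h1
  · left
    rw [measureReal_eq_zero_iff] at h0
    exact ae_eq_empty.2 h0
  · right
    rw [ae_eq_univ]
    rw [← measureReal_eq_zero_iff, probReal_compl_eq_one_sub hs, h1, sub_self]

theorem const_of_ergodic {X κ : Type*} [MeasurableSpace X] (μ : Measure X)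
    [IsProbabilityMeasure μ] (S : X → X) (hS : Ergodic S μ) [Countable κ] [MeasurableSpace κ]
    [DiscreteMeasurableSpace κ] (u : X → κ) (hu : Measurable u)
    (hinv : ∀ᵐ x ∂μ, u (S x) = u x) : ∃ c, ∀ᵐ x ∂μ, u x = c := by
  have : Nonempty X := by
    by_contra hX
    rw [not_nonempty_iff] at hX
    have := measure_univ (μ := μ)
    rw [Set.univ_eq_empty_iff.2 hX, measure_empty] at this
    exact zero_ne_one this
  have : Nonempty κ := ⟨u (Classical.arbitrary X)⟩
  obtain ⟨c, hc⟩ := hS.ae_eq_const_of_ae_eq_comp₀ hu.nullMeasurable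
    (show u ∘ S =ᵐ[μ] u from hinv)
  exact ⟨c, hc⟩

end H567MM
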