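import Pool.Agent.H567R2.MMF.Base
import Pool.Agent.H567R2.MMF.ME

namespace H567MM

open MeasureTheory Filter Topology

theorem exists_const {X G : Type*} [MeasurableSpace X] (μ : Measure X) [IsProbabilityMeasure μ]
    (S : X → X) (hS : MeasurePreserving S μ μ)
    (h3 : Ergodic (Prod.map S (Prod.map S S)) (μ.prod (μ.prod μ))) [CommGroup G] [Countable G]
    [MeasurableSpace G] [DiscreteMeasurableSpace G] (φ : X → G) (hφ : Measurable φ)
    (u : X × X → G) (hu : Measurable u)
    (h : ∀ᵐ z ∂(μ.prod μ), u (S z.1, S z.2) = u z * (φ z.1 / φ z.2)) :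
    ∃ (l : G) (p : X → G), Measurable p ∧ ∀ᵐ x ∂μ, φ x = l * p (S x) / p x := by
  set r : X × (X × X) → G := fun t => u (t.1, t.2.1) * u (t.2.1, t.2.2) * u (t.2.2, t.1) with hr
  have hrm : Measurable r := by
    have h1 : Measurable (fun t : X × (X × X) => u (t.1, t.2.1)) := hu.comp (by fun_prop)
    have h2 : Measurable (fun t : X × (X × X) => u (t.2.1, t.2.2)) := hu.comp (by fun_prop)
    have h4 : Measurable (fun t : X × (X × X) => u (t.2.2, t.1)) := hu.comp (by fun_prop)
    have h5 : Measurable (fun g : G × G × G => g.1 * g.2.1 * g.2.2) := Measurable.of_discrete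
    exact h5.comp (h1.prodMk (h2.prodMk h4))
  -- the three projections
  have q12 : Measure.QuasiMeasurePreserving (fun t : X × (X × X) => (t.1, t.2.1))
      (μ.prod (μ.prod μ)) (μ.prod μ) :=
    ((MeasurePreserving.id μ).prod (measurePreserving_fst (μ := μ) (ν := μ))).quasiMeasurePreserving
  have q23 : Measure.QuasiMeasurePreserving (fun t : X × (X × X) => t.2)
      (μ.prod (μ.prod μ)) (μ.prod μ) :=
    (measurePreserving_snd (μ := μ) (ν := μ.prod μ)).quasiMeasurePreserving
  have q13 : Measure.QuasiMeasurePreserving (fun t : X × (X × X) => (t.1, t.2.2))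
      (μ.prod (μ.prod μ)) (μ.prod μ) :=
    ((MeasurePreserving.id μ).prod (measurePreserving_snd (μ := μ) (ν := μ))).quasiMeasurePreserving
  have q31 : Measure.QuasiMeasurePreserving (fun t : X × (X × X) => (t.2.2, t.1))
      (μ.prod (μ.prod μ)) (μ.prod μ) :=
    (Measure.measurePreserving_swap (μ := μ) (ν := μ)).quasiMeasurePreserving.comp q13
  have hinv : ∀ᵐ t ∂(μ.prod (μ.prod μ)), r (Prod.map S (Prod.map S S) t) = r t := by
    filter_upwards [q12.ae h, q23.ae h, q31.ae h] with t h1 h2 h4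
    obtain ⟨x, y, z⟩ := t
    simp only at h1 h2 h4
    show u (S x, S y) * u (S y, S z) * u (S z, S x) = u (x, y) * u (y, z) * u (z, x)
    rw [h1, h2, h4]
    have e : φ x / φ y * (φ y / φ z) * (φ z / φ x) = 1 := by
      rw [div_mul_div_cancel, div_mul_div_cancel, div_self']
    calc u (x, y) * (φ x / φ y) * (u (y, z) * (φ y / φ z)) * (u (z, x) * (φ z / φ x))
        = u (x, y) * u (y, z) * u (z, x) * (φ x / φ y * (φ y / φ z) * (φ z / φ x)) := by
          simp only [mul_comm, mul_left_comm, mul_assoc]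
      _ = u (x, y) * u (y, z) * u (z, x) := by rw [e, mul_one]
  obtain ⟨r0, hr0⟩ := const_of_ergodic (μ.prod (μ.prod μ)) _ h3 r hrm hinv
  obtain ⟨x0, hx0⟩ := (Measure.ae_ae_of_ae_prod hr0).exists
  have hx1 : ∀ᵐ t ∂(μ.prod μ), u (x0, S t.1) * u (S t.1, S t.2) * u (S t.2, x0) = r0 :=
    (hS.prod hS).quasiMeasurePreserving.ae hx0
  have hall : ∀ᵐ t ∂(μ.prod μ), φ t.2 = (u (x0, S t.1) * φ t.1 / u (x0, t.1)) *
      u (S t.2, x0) / u (t.2, x0) := by
    filter_upwards [hx0, hx1, h] with t h1 h2 h4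
    obtain ⟨y, z⟩ := t
    simp only [hr] at h1 h2 h4 ⊢
    rw [h4, ← h1] at h2
    rw [eq_div_iff_mul_eq', div_mul_eq_mul_div, eq_div_iff_mul_eq']
    have h5 : u (x0, S y) * (u (y, z) * (φ y / φ z)) * u (S z, x0) * φ z =
        u (x0, y) * u (y, z) * u (z, x0) * φ z := by rw [h2]
    have h6 : u (x0, S y) * (u (y, z) * (φ y / φ z)) * u (S z, x0) * φ z =
        u (y, z) * (u (x0, S y) * φ y * u (S z, x0)) := by
      have : φ y / φ z * φ z = φ y := div_mul_cancel _ _
      calc _ = u (x0, S y) * u (y, z) * u (S z, x0) * (φ y / φ z * φ z) := by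
            simp only [mul_comm, mul_left_comm, mul_assoc]
        _ = _ := by
            rw [this]
            simp only [mul_comm, mul_left_comm, mul_assoc]
    rw [h6] at h5
    have h7 : u (x0, y) * u (y, z) * u (z, x0) * φ z =
        u (y, z) * (u (x0, y) * (u (z, x0) * φ z)) := by
      simp only [mul_comm, mul_left_comm, mul_assoc]
    rw [h7] at h5
    have h8 := mul_left_cancel h5
    rw [h8]
    simp only [mul_comm, mul_left_comm]
  obtain ⟨y0, hy0⟩ := (Measure.ae_ae_of_ae_prod hall).exists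
  refine ⟨u (x0, S y0) * φ y0 / u (x0, y0), fun z => u (z, x0), ?_, hy0⟩
  exact hu.comp (by fun_prop)

theorem coc_const {X G : Type*} [MeasurableSpace X] (μ : Measure X) [IsProbabilityMeasure μ]
    (S : X → X) (hS : MeasurePreserving S μ μ) [CommGroup G] (φ p : X → G) (l : G) (f : ℕ)
    (h : ∀ᵐ x ∂μ, φ x ^ f = l * p (S x) / p x) :
    ∀ᵐ x ∂μ, ∀ n, coc S φ n x ^ f = l ^ n * p (S^[n] x) / p x := by
  have h1 : ∀ᵐ x ∂μ, ∀ n, φ (S^[n] x) ^ f = l * p (S (S^[n] x)) / p (S^[n] x) :=
    ae_all_iff.mpr (fun n => (hS.iterate n).quasiMeasurePreserving.ae h)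
  filter_upwards [h1] with x hx n
  induction n with
  | zero => simp [coc]
  | succ n ih =>
    rw [coc, mul_pow, ih, hx n, Function.iterate_succ_apply', pow_succ, div_mul_div_comm]
    rw [show l ^ n * p (S^[n] x) * (l * p (S (S^[n] x))) =
      (l ^ n * l * p (S (S^[n] x))) * p (S^[n] x) by
        simp only [mul_comm, mul_left_comm, mul_assoc], mul_div_mul_right_eq_div]

end H567MM
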