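import Pool.Agent.H567R2.MMF.Base

/-!
# Task MP: products of mixing maps are mixing
-/

namespace H567MM

open MeasureTheory Filter Topology Set

theorem MP_aux_iff {X : Type*} [MeasurableSpace X] (μ : Measure X) (T : X → X) :
    MixOrd μ T 1 ↔ ∀ A B, MeasurableSet A → MeasurableSet B →
      Tendsto (fun n => μ.real (A ∩ T^[n] ⁻¹' B)) atTop (𝓝 (μ.real A * μ.real B)) := by
  have key : ∀ (A : Fin (1 + 1) → Set X) (n : Fin (1 + 1) → ℕ), n 0 = 0 →
      (⋂ j, T^[n j] ⁻¹' A j) = A 0 ∩ T^[n 1] ⁻¹' A 1 := by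
    intro A n hn
    ext x
    simp [Fin.forall_fin_two, hn]
  constructor
  · intro h A B hA hB
    rw [Metric.tendsto_atTop]
    intro ε hε
    obtain ⟨G, hG⟩ := h ![A, B] (by intro j; fin_cases j <;> simpa) ε hε
    refine ⟨G, fun n hn => ?_⟩
    have := hG ![0, n] rfl (by intro j; fin_cases j; simpa using hn)
    rw [key _ _ rfl, Fin.prod_univ_two] at this
    simpa [Real.dist_eq] using this
  · intro h A hA ε hε
    obtain ⟨G, hG⟩ := Metric.tendsto_atTop.1 (h (A 0) (A 1) (hA 0) (hA 1)) ε hε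
    refine ⟨G, fun n hn0 hn => ?_⟩
    rw [key A n hn0, Fin.prod_univ_two]
    have h1 := hn 0
    simp only [Fin.castSucc_zero, hn0, zero_add, Fin.succ_zero_eq_one] at h1
    have := hG (n 1) h1
    rwa [Real.dist_eq] at this

theorem MP_aux_ind {Z : Type*} [MeasurableSpace Z] (P : Measure Z) [IsProbabilityMeasure P]
    (F : ℕ → Measure Z) [∀ n, IsFiniteMeasure (F n)]
    (hle : ∀ n s, MeasurableSet s → (F n).real s ≤ P.real s) (c : ℝ) (C : Set (Set Z))
    (hgen : MeasurableSpace.generateFrom C = ‹MeasurableSpace Z›) (hpi : IsPiSystem C)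
    (huniv : Tendsto (fun n => (F n).real univ) atTop (𝓝 c))
    (hbasic : ∀ s ∈ C, Tendsto (fun n => (F n).real s) atTop (𝓝 (c * P.real s))) :
    ∀ s, MeasurableSet s → Tendsto (fun n => (F n).real s) atTop (𝓝 (c * P.real s)) := by
  intro s hs
  refine MeasurableSpace.induction_on_inter
    (C := fun s _ => Tendsto (fun n => (F n).real s) atTop (𝓝 (c * P.real s)))
    hgen.symm hpi ?_ hbasic ?_ ?_ s hs
  · simp
  · intro t ht ih
    have h1 : (fun n => (F n).real tᶜ) = fun n => (F n).real univ - (F n).real t := by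
      funext n
      rw [measureReal_compl ht]
    rw [h1, probReal_compl_eq_one_sub ht, mul_sub, mul_one]
    exact huniv.sub ih
  · intro f hd hf ih
    have h1 : ∀ (Q : Measure Z) [IsFiniteMeasure Q], Q.real (⋃ i, f i) = ∑' i, Q.real (f i) := by
      intro Q _
      simp only [measureReal_def]
      rw [measure_iUnion hd hf, ENNReal.tsum_toReal_eq (fun i => measure_ne_top _ _)]
    simp only [h1]
    rw [← tsum_mul_left]
    refine tendsto_tsum_of_dominated_convergence (summable_measure_toReal (μ := P) hf hd) ih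
      (Eventually.of_forall fun n k => ?_)
    rw [Real.norm_of_nonneg measureReal_nonneg]
    exact hle n _ (hf k)

theorem mix_prod {X Y : Type*} [MeasurableSpace X] [MeasurableSpace Y] (μ : Measure X)
    (ν : Measure Y) [IsProbabilityMeasure μ] [IsProbabilityMeasure ν] (S : X → X) (T : Y → Y)
    (hS : MeasurePreserving S μ μ) (hT : MeasurePreserving T ν ν) (h1 : MixOrd μ S 1)
    (h2 : MixOrd ν T 1) : MixOrd (μ.prod ν) (Prod.map S T) 1 := by
  rw [MP_aux_iff] at h1 h2 ⊢
  have hR : MeasurePreserving (Prod.map S T) (μ.prod ν) (μ.prod ν) := hS.prod hT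
  set P := μ.prod ν with hP
  set R := Prod.map S T with hRdef
  have hRn : ∀ n, MeasurePreserving R^[n] P P := fun n => hR.iterate n
  -- rectangles
  have hrect : ∀ A1 A2 B1 B2, MeasurableSet A1 → MeasurableSet A2 → MeasurableSet B1 →
      MeasurableSet B2 → Tendsto (fun n => P.real ((A1 ×ˢ A2) ∩ R^[n] ⁻¹' (B1 ×ˢ B2))) atTop
        (𝓝 (P.real (A1 ×ˢ A2) * P.real (B1 ×ˢ B2))) := by
    intro A1 A2 B1 B2 hA1 hA2 hB1 hB2
    have e : ∀ n, (A1 ×ˢ A2) ∩ R^[n] ⁻¹' (B1 ×ˢ B2) =
        (A1 ∩ S^[n] ⁻¹' B1) ×ˢ (A2 ∩ T^[n] ⁻¹' B2) := by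
      intro n
      ext ⟨x, y⟩
      rw [hRdef, Prod.map_iterate]
      simp only [mem_inter_iff, mem_prod, mem_preimage, Prod.map_apply]
      tauto
    simp only [e, hP, measureReal_prod_prod]
    have h3 := (h1 A1 B1 hA1 hB1).mul (h2 A2 B2 hA2 hB2)
    have e2 : μ.real A1 * ν.real A2 * (μ.real B1 * ν.real B2) =
        μ.real A1 * μ.real B1 * (ν.real A2 * ν.real B2) := by ring
    rw [e2]
    exact h3
  -- rectangle and arbitrary set
  have hstep : ∀ A1 A2, MeasurableSet A1 → MeasurableSet A2 → ∀ B, MeasurableSet B →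
      Tendsto (fun n => P.real ((A1 ×ˢ A2) ∩ R^[n] ⁻¹' B)) atTop
        (𝓝 (P.real (A1 ×ˢ A2) * P.real B)) := by
    intro A1 A2 hA1 hA2 B hB
    have e : ∀ n s, MeasurableSet s → ((P.restrict (A1 ×ˢ A2)).map R^[n]).real s =
        P.real ((A1 ×ˢ A2) ∩ R^[n] ⁻¹' s) := by
      intro n s hs
      rw [map_measureReal_apply (hRn n).measurable hs,
        measureReal_restrict_apply ((hRn n).measurable hs), inter_comm]
    have hfin : ∀ n, IsFiniteMeasure ((P.restrict (A1 ×ˢ A2)).map R^[n]) := fun n => inferInstance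
    have := MP_aux_ind P (fun n => (P.restrict (A1 ×ˢ A2)).map R^[n]) (fun n s hs => by
      rw [e n s hs, ← (hRn n).measureReal_preimage hs.nullMeasurableSet]
      exact measureReal_mono inter_subset_right) (P.real (A1 ×ˢ A2)) _ generateFrom_prod
      isPiSystem_prod (by
        simp only [e _ _ MeasurableSet.univ, preimage_univ, inter_univ]
        exact tendsto_const_nhds) (by
        rintro _ ⟨B1, hB1, B2, hB2, rfl⟩
        simp only [e _ _ (MeasurableSet.prod hB1 hB2)]
        exact hrect A1 A2 B1 B2 hA1 hA2 hB1 hB2) B hB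
    simpa only [e _ _ hB] using this
  intro A B hA hB
  have e : ∀ n s, MeasurableSet s → (P.restrict (R^[n] ⁻¹' B)).real s =
      P.real (s ∩ R^[n] ⁻¹' B) := fun n s hs => measureReal_restrict_apply hs
  have := MP_aux_ind P (fun n => P.restrict (R^[n] ⁻¹' B)) (fun n s hs => by
    rw [e n s hs]
    exact measureReal_mono inter_subset_left) (P.real B) _ generateFrom_prod
    isPiSystem_prod (by
      simp only [e _ _ MeasurableSet.univ, univ_inter,
        (hRn _).measureReal_preimage hB.nullMeasurableSet]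
      exact tendsto_const_nhds) (by
      rintro _ ⟨A1, hA1, A2, hA2, rfl⟩
      simp only [e _ _ (MeasurableSet.prod hA1 hA2)]
      rw [mul_comm]
      exact hstep A1 A2 hA1 hA2 B hB) A hA
  rw [mul_comm]
  simpa only [e _ _ hA] using this

end H567MM
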