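import Pool.Agent.H567R2.MMF.Base

/-! RE: positive recurrence gives an invariant set of finite measure. -/

namespace H567MM

open MeasureTheory Filter Topology

/-- the skew product on `Ω × G` -/
private def tau {Ω G : Type*} [CommGroup G] (S : Ω → Ω) (ψ : Ω → G) (z : Ω × G) : Ω × G :=
  (S z.1, z.2 * ψ z.1)

private theorem tau_iterate {Ω G : Type*} [CommGroup G] (S : Ω → Ω) (ψ : Ω → G) (n : ℕ)
    (z : Ω × G) : (tau S ψ)^[n] z = (S^[n] z.1, z.2 * coc S ψ n z.1) := by
  induction n with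
  | zero => simp [coc]
  | succ n ih =>
    rw [Function.iterate_succ_apply', ih, tau, coc]
    simp only [Function.iterate_succ_apply', mul_assoc]

private theorem tau_mp {Ω G : Type*} [MeasurableSpace Ω] (P : Measure Ω)
    [IsProbabilityMeasure P] (S : Ω → Ω) (hS : MeasurePreserving S P P) [CommGroup G]
    [Countable G] [MeasurableSpace G] [DiscreteMeasurableSpace G] (ψ : Ω → G)
    (hψ : Measurable ψ) :
    MeasurePreserving (tau S ψ) (P.prod Measure.count) (P.prod Measure.count) := by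
  have hm : Measurable (Function.uncurry fun (ω : Ω) (g : G) => g * ψ ω) := by
    have h1 : Measurable fun p : G × G => p.1 * p.2 := Measurable.of_discrete
    exact h1.comp (measurable_snd.prodMk (hψ.comp measurable_fst))
  exact hS.skew_product hm (ae_of_all _ fun ω => map_mul_right_eq_self _ _)

theorem exists_inv_set {Ω G : Type*} [MeasurableSpace Ω] (P : Measure Ω)
    [IsProbabilityMeasure P] (S : Ω → Ω) (hS : MeasurePreserving S P P) [CommGroup G]
    [Countable G] [MeasurableSpace G] [DiscreteMeasurableSpace G] (ψ : Ω → G)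
    (hψ : Measurable ψ) (c : ℝ) (hc : 0 < c)
    (h : ∀ N₀ : ℕ, ∃ N ≥ N₀, c * N ≤ ∑ n ∈ Finset.range N, P.real {ω | coc S ψ n ω = 1}) :
    ∃ B : Set (Ω × G), MeasurableSet B ∧ (P.prod Measure.count) B ≠ 0 ∧
      (P.prod Measure.count) B ≠ ⊤ ∧
      ∀ᵐ ω ∂P, ∀ g : G, ((ω, g) ∈ B ↔ (S ω, g * ψ ω) ∈ B) := by
  set m : Measure (Ω × G) := P.prod Measure.count with hmdef
  have hτ : MeasurePreserving (tau S ψ) m m := tau_mp P S hS ψ hψ
  have hA : MeasurableSet (Set.univ ×ˢ ({1} : Set G) : Set (Ω × G)) :=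
    MeasurableSet.univ.prod (measurableSet_singleton _)
  set A : Set (Ω × G) := Set.univ ×ˢ ({1} : Set G) with hAdef
  have hmA : m A ≠ ⊤ := by
    rw [hmdef, hAdef, Measure.prod_prod, measure_univ, one_mul, Measure.count_singleton]
    exact ENNReal.one_ne_top
  set U : Lp ℝ 2 m →L[ℝ] Lp ℝ 2 m :=
    (Lp.compMeasurePreservingₗᵢ ℝ (tau S ψ) hτ).toContinuousLinearMap with hU
  have hUn : ‖U‖ ≤ 1 := LinearIsometry.norm_toContinuousLinearMap_le _
  set e : Lp ℝ 2 m := indicatorConstLp 2 hA hmA (1 : ℝ) with he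
  have hUc : ∀ f, U f = Lp.compMeasurePreserving (tau S ψ) hτ f := fun f => rfl
  have hUit : ∀ n : ℕ, (⇑U)^[n] e = Lp.compMeasurePreserving (tau S ψ)^[n] (hτ.iterate n) e := by
    intro n
    rw [← Lp.compMeasurePreserving_iterate hτ n]
    rfl
  have hin : ∀ n : ℕ, inner ℝ e ((⇑U)^[n] e) = P.real {ω | coc S ψ n ω = 1} := by
    intro n
    rw [hUit n, he, Lp.indicatorConstLp_compMeasurePreserving hA hmA (1 : ℝ) (hτ.iterate n),
      L2.real_inner_indicatorConstLp_one_indicatorConstLp_one hA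
        (hA.preimage (hτ.iterate n).measurable) hmA
        (by rw [(hτ.iterate n).measure_preimage hA.nullMeasurableSet]; exact hmA)]
    have hset : A ∩ (tau S ψ)^[n] ⁻¹' A = {ω | coc S ψ n ω = 1} ×ˢ ({1} : Set G) := by
      ext ⟨ω, g⟩
      simp only [hAdef, Set.mem_inter_iff, Set.mem_prod, Set.mem_univ, true_and,
        Set.mem_singleton_iff, Set.mem_preimage, tau_iterate, Set.mem_ofPred_eq]
      constructor
      · rintro ⟨rfl, h2⟩
        exact ⟨by simpa using h2, rfl⟩
      · rintro ⟨h1, rfl⟩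
        exact ⟨rfl, by simpa using h1⟩
    rw [hset, Measure.real, hmdef, Measure.prod_prod, Measure.count_singleton, mul_one]
    rfl
  have hlim := U.tendsto_birkhoffAverage_orthogonalProjection hUn e
  set hp := (U.eqLocus (1 : Lp ℝ 2 m →L[ℝ] Lp ℝ 2 m)).orthogonalProjectionOnto e with hpdef
  have hfix : U (hp : Lp ℝ 2 m) = hp := by
    have := hp.2
    rw [LinearMap.mem_eqLocus] at this
    exact this
  have hlim2 : Tendsto (fun N : ℕ => inner ℝ e (birkhoffAverage ℝ U _root_.id N e)) atTop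
      (𝓝 (inner ℝ e (hp : Lp ℝ 2 m))) := tendsto_const_nhds.inner hlim
  have hav : ∀ N : ℕ, inner ℝ e (birkhoffAverage ℝ U _root_.id N e) =
      (N : ℝ)⁻¹ * ∑ n ∈ Finset.range N, P.real {ω | coc S ψ n ω = 1} := by
    intro N
    rw [birkhoffAverage, birkhoffSum, inner_smul_right, inner_sum]
    congr 1
    exact Finset.sum_congr rfl fun n _ => hin n
  have hge : c ≤ inner ℝ e (hp : Lp ℝ 2 m) := by
    refine ge_of_tendsto_of_frequently hlim2 ?_
    rw [Filter.frequently_atTop]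
    intro a
    obtain ⟨N, hN, hcN⟩ := h (a + 1)
    refine ⟨N, by omega, ?_⟩
    have hN0 : (0 : ℝ) < N := by exact_mod_cast (by omega : 0 < N)
    rw [hav N, inv_mul_eq_div, le_div_iff₀ hN0]
    exact hcN
  set f : Ω × G → ℝ := ⇑(hp : Lp ℝ 2 m) with hf
  have hfm : StronglyMeasurable f := Lp.stronglyMeasurable _
  have hfL : MemLp f 2 m := Lp.memLp _
  have hfinv : ∀ᵐ z ∂m, f (tau S ψ z) = f z := by
    have h1 := Lp.coeFn_compMeasurePreserving (hp : Lp ℝ 2 m) hτ
    rw [← hUc, hfix] at h1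
    filter_upwards [h1] with z hz
    exact hz.symm
  have hne : m {z | f z ≠ 0} ≠ 0 := by
    intro h0
    have h1 : ∀ᵐ z ∂m, f z = 0 := by
      rw [ae_iff]
      exact h0
    have h2 : inner ℝ e (hp : Lp ℝ 2 m) = 0 := by
      rw [he, L2.inner_indicatorConstLp_one hA hmA]
      exact integral_eq_zero_of_ae (ae_restrict_of_ae h1)
    linarith
  obtain ⟨k, hk⟩ : ∃ k : ℕ, m {z | 1 / ((k : ℝ) + 1) ≤ |f z|} ≠ 0 := by
    by_contra hcon
    push Not at hcon
    apply hne
    have hsub : {z | f z ≠ 0} ⊆ ⋃ k : ℕ, {z | 1 / ((k : ℝ) + 1) ≤ |f z|} := by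
      intro z hz
      obtain ⟨k, hk⟩ := exists_nat_one_div_lt (abs_pos.2 hz)
      exact Set.mem_iUnion.2 ⟨k, hk.le⟩
    exact measure_mono_null hsub (measure_iUnion_null hcon)
  have hk0 : (0 : ℝ) < 1 / ((k : ℝ) + 1) := by positivity
  refine ⟨{z | 1 / ((k : ℝ) + 1) ≤ |f z|}, measurableSet_le measurable_const
    hfm.measurable.abs, hk, ?_, ?_⟩
  · have h3 := hfL.meas_ge_lt_top (by norm_num) (by norm_num)
      (ε := ⟨1 / ((k : ℝ) + 1), hk0.le⟩) (by
        intro h0
        exact hk0.ne' (congrArg NNReal.toReal h0))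
    exact h3.ne
  · have h4 := Measure.ae_ae_of_ae_prod hfinv
    filter_upwards [h4] with ω hω g
    have h5 := Measure.ae_count_iff.1 hω g
    have h6 : f (S ω, g * ψ ω) = f (ω, g) := h5
    simp only [h6]

end H567MM
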