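import Pool.Agent.H567R2.MMF.Base
import Pool.Agent.H567R2.MMF.CO
import Pool.Agent.H567R2.MMF.MP
import Pool.Agent.H567R2.MMF.ME
import Pool.Agent.H567R2.MMF.RE
import Pool.Agent.H567R2.MMF.CB
import Pool.Agent.H567R2.MMF.CC

/-! CA: assembly of ME, RE, CB, CC. -/

namespace H567MM

open MeasureTheory Filter Topology

theorem CA_aux_coc {X G : Type*} [CommGroup G] (S : X → X) (φ : X → G) (n : ℕ) (z : X × X) :
    coc (Prod.map S S) (fun z : X × X => φ z.1 / φ z.2) n z = coc S φ n z.1 / coc S φ n z.2 := by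
  induction n with
  | zero => simp [coc]
  | succ n ih =>
    simp only [coc]
    rw [ih]
    rw [Prod.map_iterate]
    simp only [Prod.map_fst, Prod.map_snd]
    rw [div_mul_div_comm]

theorem collision_const {X G : Type*} [MeasurableSpace X] (μ : Measure X)
    [IsProbabilityMeasure μ] (S : X → X) (hS : MeasurePreserving S μ μ) (hmix : MixOrd μ S 1)
    [CommGroup G] [Countable G] [MeasurableSpace G] [DiscreteMeasurableSpace G] (φ : X → G)
    (hφ : Measurable φ) (c : ℝ) (hc : 0 < c)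
    (h : ∀ N₀ : ℕ, ∃ N ≥ N₀, c * N ≤
      ∑ n ∈ Finset.range N, (μ.prod μ).real {z | coc S φ n z.1 = coc S φ n z.2}) :
    ∃ f : ℕ, 0 < f ∧ ∃ (l : G) (p : X → G), Measurable p ∧
      ∀ᵐ x ∂μ, ∀ n, coc S φ n x ^ f = l ^ n * p (S^[n] x) / p x := by
  have hS2 : MeasurePreserving (Prod.map S S) (μ.prod μ) (μ.prod μ) := hS.prod hS
  have mix2 : MixOrd (μ.prod μ) (Prod.map S S) 1 := mix_prod μ μ S S hS hS hmix hmix
  have mix3 : MixOrd (μ.prod (μ.prod μ)) (Prod.map S (Prod.map S S)) 1 :=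
    mix_prod μ (μ.prod μ) S (Prod.map S S) hS hS2 hmix mix2
  have erg2 : Ergodic (Prod.map S S) (μ.prod μ) := ergodic_of_mix _ _ hS2 mix2
  have erg3 : Ergodic (Prod.map S (Prod.map S S)) (μ.prod (μ.prod μ)) :=
    ergodic_of_mix _ _ (hS.prod hS2) mix3
  have hdiv : Measurable (fun q : G × G => q.1 / q.2) := measurable_of_countable _
  have hpow : ∀ f : ℕ, Measurable (fun g : G => g ^ f) := fun f => measurable_of_countable _
  have hψ : Measurable (fun z : X × X => φ z.1 / φ z.2) :=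
    hdiv.comp ((hφ.comp measurable_fst).prodMk (hφ.comp measurable_snd))
  obtain ⟨B, hB, h0, h1, hinv⟩ := exists_inv_set (μ.prod μ) (Prod.map S S) hS2
    (fun z : X × X => φ z.1 / φ z.2) hψ c hc (by
      intro N₀
      obtain ⟨N, hN, hN2⟩ := h N₀
      refine ⟨N, hN, hN2.trans (le_of_eq (Finset.sum_congr rfl ?_))⟩
      intro n _
      congr 1
      ext z
      simp only [Set.mem_setOf_eq]
      rw [CA_aux_coc, div_eq_one])
  obtain ⟨f, hf, u, hu, hu2⟩ := exists_cob (μ.prod μ) (Prod.map S S) erg2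
    (fun z : X × X => φ z.1 / φ z.2) hψ B hB h0 h1 hinv
  obtain ⟨l, p, hp, hp2⟩ := exists_const μ S hS erg3 (fun x => φ x ^ f) ((hpow f).comp hφ) u hu (by
    filter_upwards [hu2] with z hz
    have : (S z.1, S z.2) = Prod.map S S z := rfl
    rw [this, hz, div_pow])
  refine ⟨f, hf, l, p, hp, ?_⟩
  exact coc_const μ S hS φ p l f hp2

end H567MM
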