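import Pool.Agent.H567R2.MMF.Base
import Pool.Agent.H567R2.MMF.CO

namespace H567MM

theorem EL_aux_cv_add {X K : Type*} [Field K] (S : X → X) (φ : X → Kˣ) (m n : ℕ) (x : X) :
    cv S φ (m + n) x = cv S φ m x * cv S φ n (S^[m] x) := by
  unfold cv
  rw [H567MM.coc_add, Units.val_mul]

theorem EL_aux_comm {X K : Type*} [Field K] (S : X → X) (φ : X → Kˣ) (m n : ℕ) (x : X) :
    cv S φ n (S^[m] x) * cv S φ m x = cv S φ n x * cv S φ m (S^[n] x) := by
  rw [← EL_aux_cv_add, add_comm n m, EL_aux_cv_add, mul_comm]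

theorem EL_aux_ne {X K : Type*} [Field K] (S : X → X) (φ : X → Kˣ) (n : ℕ) (x : X) :
    cv S φ n x ≠ 0 := Units.ne_zero _

theorem EL_aux_sum {X K : Type*} [Field K] (S : X → X) (φ : X → Kˣ) (x : X) {s : ℕ}
    (w : Fin (s + 2) → K) (n : Fin (s + 2) → ℕ) (t : ℕ)
    (h : ∑ i, w i * cv S φ (n i) (S^[t] x) = 0) :
    ∑ i, w i * (cv S φ (n i) x * cv S φ t (S^[n i] x)) = 0 := by
  have h1 : (∑ i, w i * cv S φ (n i) (S^[t] x)) * cv S φ t x = 0 := by rw [h, zero_mul]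
  rw [Finset.sum_mul] at h1
  rw [← h1]
  refine Finset.sum_congr rfl fun i _ => ?_
  rw [mul_assoc, EL_aux_comm]

theorem elimination {X K : Type*} [Field K] (S : X → X) (φ : X → Kˣ) (x : X) {s : ℕ}
    (w : Fin (s + 2) → K) (hw : ∀ i, w i ≠ 0) (n : Fin (s + 2) → ℕ) (t t' : ℕ) (htt : t < t')
    (h : ∑ i, w i * cv S φ (n i) (S^[t] x) = 0)
    (h' : ∑ i, w i * cv S φ (n i) (S^[t'] x) = 0) :
    coc S φ (t' - t) (S^[n 0] (S^[t] x)) = coc S φ (t' - t) (S^[n 1] (S^[t] x)) ∨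
    (∑ i : Fin (s + 1), w i.succ * br S φ t t' (S^[n i.succ] x) (S^[n 0] x) *
          cv S φ (n i.succ) x = 0 ∧
      (fun i : Fin (s + 1) => w i.succ * br S φ t t' (S^[n i.succ] x) (S^[n 0] x)) ≠ 0) := by
  have h1 := EL_aux_sum S φ x w n t h
  have h2 := EL_aux_sum S φ x w n t' h'
  have h3 : ∑ i, w i * br S φ t t' (S^[n i] x) (S^[n 0] x) * cv S φ (n i) x = 0 := by
    have h4 : (∑ i, w i * (cv S φ (n i) x * cv S φ t (S^[n i] x))) * cv S φ t' (S^[n 0] x) -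
        (∑ i, w i * (cv S φ (n i) x * cv S φ t' (S^[n i] x))) * cv S φ t (S^[n 0] x) = 0 := by
      rw [h1, h2]; ring
    rw [Finset.sum_mul, Finset.sum_mul, ← Finset.sum_sub_distrib] at h4
    rw [← h4]
    refine Finset.sum_congr rfl fun i _ => ?_
    unfold br
    ring
  rw [Fin.sum_univ_succ] at h3
  have h5 : br S φ t t' (S^[n 0] x) (S^[n 0] x) = 0 := by
    unfold br; ring
  rw [h5, mul_zero, zero_mul, zero_add] at h3
  by_cases hz : (fun i : Fin (s + 1) => w i.succ * br S φ t t' (S^[n i.succ] x) (S^[n 0] x)) = 0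
  · left
    have h6 := congrFun hz 0
    simp only [Pi.zero_apply, mul_eq_zero] at h6
    have h7 : br S φ t t' (S^[n (Fin.succ 0)] x) (S^[n 0] x) = 0 :=
      h6.resolve_left (hw _)
    have h1' : (Fin.succ 0 : Fin (s + 2)) = 1 := rfl
    rw [h1'] at h7
    unfold br at h7
    obtain ⟨d, rfl⟩ : ∃ d, t' = t + d := ⟨t' - t, by omega⟩
    rw [EL_aux_cv_add, EL_aux_cv_add] at h7
    have h8 : (cv S φ t (S^[n 1] x) * cv S φ t (S^[n 0] x)) *
        (cv S φ d (S^[t] (S^[n 0] x)) - cv S φ d (S^[t] (S^[n 1] x))) = 0 := by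
      rw [← h7]; ring
    rw [mul_eq_zero, mul_eq_zero] at h8
    have h9 : cv S φ d (S^[t] (S^[n 0] x)) = cv S φ d (S^[t] (S^[n 1] x)) := by
      rcases h8 with (h8 | h8) | h8
      · exact absurd h8 (EL_aux_ne _ _ _ _)
      · exact absurd h8 (EL_aux_ne _ _ _ _)
      · exact sub_eq_zero.1 h8
    have h10 : t + d - t = d := by omega
    rw [h10]
    have hc : ∀ m : ℕ, S^[m] (S^[t] x) = S^[t] (S^[m] x) := by
      intro m
      rw [← Function.iterate_add_apply, ← Function.iterate_add_apply, add_comm]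
    rw [hc, hc]
    exact Units.ext h9
  · right
    exact ⟨h3, hz⟩

end H567MM
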