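import Pool.Agent.H567R2.MMF.Base

/-! GT: the gap lemma for transcendental elements -/

namespace H567MM

open MeasureTheory Filter Topology Polynomial

theorem GT_aux_poly {F : Type*} [Field F] {s : ℕ} (P : Fin s → F[X]) {i0 : Fin s}
    (hP : P i0 ≠ 0) (n : Fin s → ℕ) (hn : Gaps (∑ i, (P i).natDegree + 1) n) :
    ∑ i, P i * X ^ n i ≠ 0 := by
  intro h
  have h1 := congrArg (fun q => Polynomial.coeff q (n i0 + (P i0).natDegree)) h
  simp only [Polynomial.finsetSum_coeff, Polynomial.coeff_zero] at h1
  rw [Finset.sum_eq_single i0] at h1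
  · rw [Polynomial.coeff_mul_X_pow', if_pos (by omega), Nat.add_sub_cancel_left] at h1
    exact hP (Polynomial.leadingCoeff_eq_zero.mp h1)
  · intro i _ hi
    have hle : ∀ j, (P j).natDegree ≤ ∑ i, (P i).natDegree := fun j =>
      Finset.single_le_sum (f := fun i => (P i).natDegree) (fun _ _ => Nat.zero_le _)
        (Finset.mem_univ j)
    have h2 := hle i
    have h3 := hle i0
    rw [Polynomial.coeff_mul_X_pow']
    rcases lt_or_gt_of_ne hi with hlt | hgt
    · have h4 := hn i i0 hlt
      rw [if_pos (by omega)]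
      exact Polynomial.coeff_eq_zero_of_natDegree_lt (by omega)
    · have h4 := hn i0 i hgt
      rw [if_neg (by omega)]
  · intro h; exact absurd (Finset.mem_univ _) h

/-- GT -/
theorem gap_transcendental {F K : Type*} [Field F] [Field K] [Algebra F K] (z : K)
    (hz : Transcendental F z) {s : ℕ} (c : Fin s → K) (hc : c ≠ 0) :
    ∃ G : ℕ, ∀ n : Fin s → ℕ, Gaps G n → ∑ i, c i * z ^ n i ≠ 0 := by
  have hinj : Function.Injective (aeval z : F[X] →ₐ[F] K) := transcendental_iff_injective.mp hz
  letI : Algebra F[X] K := (aeval z : F[X] →ₐ[F] K).toRingHom.toAlgebra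
  have hinj' : Function.Injective (algebraMap F[X] K) := hinj
  haveI : FaithfulSMul F[X] K := (faithfulSMul_iff_algebraMap_injective _ _).mpr hinj'
  letI : Algebra (FractionRing F[X]) K := FractionRing.liftAlgebra F[X] K
  haveI : IsScalarTower F[X] (FractionRing F[X]) K := FractionRing.isScalarTower_liftAlgebra F[X] K
  have hX : algebraMap F[X] K X = z := aeval_X z
  obtain ⟨i0, hi0⟩ : ∃ i0, c i0 ≠ 0 := by
    by_contra hcon
    push Not at hcon
    exact hc (funext hcon)
  obtain ⟨L, hL⟩ : ∃ L : Module.Dual (FractionRing F[X]) K, L (c i0) ≠ 0 := by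
    by_contra hcon
    push Not at hcon
    exact hi0 ((Module.forall_dual_apply_eq_zero_iff (FractionRing F[X]) (c i0)).mp hcon)
  obtain ⟨b, hb⟩ := IsLocalization.exist_integer_multiples (nonZeroDivisors F[X])
    (Finset.univ : Finset (Fin s)) (fun i => L (c i))
  choose P hP using fun i => hb i (Finset.mem_univ i)
  have hb0 : algebraMap F[X] (FractionRing F[X]) (b : F[X]) ≠ 0 :=
    IsFractionRing.to_map_ne_zero_of_mem_nonZeroDivisors b.2
  have hP0 : P i0 ≠ 0 := by
    intro h
    have h1 := hP i0
    rw [h, map_zero, Algebra.smul_def] at h1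
    rcases mul_eq_zero.mp h1.symm with h2 | h2
    · exact hb0 h2
    · exact hL h2
  refine ⟨∑ i, (P i).natDegree + 1, fun n hn hsum => ?_⟩
  apply GT_aux_poly P hP0 n hn
  apply IsFractionRing.injective F[X] (FractionRing F[X])
  rw [map_zero, map_sum]
  have h1 : ∀ i, algebraMap F[X] (FractionRing F[X]) (P i * X ^ n i) =
      algebraMap F[X] (FractionRing F[X]) (b : F[X]) * L (c i * z ^ n i) := by
    intro i
    have h2 : c i * z ^ n i = algebraMap F[X] (FractionRing F[X]) (X ^ n i) • c i := by
      rw [algebraMap_smul, Algebra.smul_def, map_pow, hX, mul_comm]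
    rw [h2, map_smul, map_mul, hP i, Algebra.smul_def, smul_eq_mul]
    ring
  rw [Finset.sum_congr rfl fun i _ => h1 i, ← Finset.mul_sum, ← map_sum, hsum, map_zero, mul_zero]

end H567MM
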