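import Pool.Agent.H567R2.MMF.Base
import Pool.Agent.H567R2.MMF.GA
import Pool.Agent.H567R2.MMF.CO

/-!
# FC: cocycles cohomologous to a constant
-/

namespace H567MM

open MeasureTheory Filter Topology H567MM

theorem FC_aux_fin {L : Type*} [Field L] {f : ℕ} (hf : 0 < f) {A : Set L} (hA : A.Finite) :
    {g : L | g ^ f ∈ A}.Finite := by
  have h : ((fun g : L => g ^ f) ⁻¹' A).Finite := by
    apply hA.preimage'
    intro b _
    apply (Polynomial.finite_setOf_isRoot (Polynomial.X_pow_sub_C_ne_zero hf b)).subset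
    intro g hg
    have hg' : g ^ f = b := hg
    simp [Polynomial.IsRoot, hg']
  exact h

theorem FC_aux_meas {X G : Type*} [MeasurableSpace X] (p : X → G)
    (hp : ∀ g : G, MeasurableSet {x | p x = g}) (Φ : Set G) (hΦ : Φ.Finite) :
    MeasurableSet {x | p x ∉ Φ} := by
  have h : {x | p x ∉ Φ} = (⋃ g ∈ Φ, {x | p x = g})ᶜ := by
    ext x
    simp only [Set.mem_setOf_eq, Set.mem_compl_iff, Set.mem_iUnion, exists_prop, not_exists,
      not_and]
    constructor
    · rintro h g hg rfl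
      exact h hg
    · intro h hx
      exact h _ hx rfl
  rw [h]
  exact (hΦ.measurableSet_biUnion fun g _ => hp g).compl

theorem FC_aux_tight {X G : Type*} [MeasurableSpace X] (μ : Measure X) [IsProbabilityMeasure μ]
    [Countable G] [Nonempty G] (p : X → G) (hp : ∀ g : G, MeasurableSet {x | p x = g}) (ε : ℝ)
    (hε : 0 < ε) : ∃ Φ : Set G, Φ.Finite ∧ μ.real {x | p x ∉ Φ} < ε := by
  obtain ⟨e, he⟩ := exists_surjective_nat G
  set B : ℕ → Set X := fun N => {x | p x ∉ (e '' {i | i < N})} with hB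
  have hBm : ∀ N, MeasurableSet (B N) := fun N =>
    FC_aux_meas p hp _ ((Set.finite_lt_nat N).image e)
  have hanti : Antitone B := by
    intro N N' hN x hx hx2
    apply hx
    obtain ⟨i, hi, hie⟩ := hx2
    exact ⟨i, lt_of_lt_of_le hi hN, hie⟩
  have hint : ⋂ N, B N = ∅ := by
    ext x
    simp only [Set.mem_iInter, Set.mem_empty_iff_false, iff_false, not_forall]
    obtain ⟨i, hi⟩ := he (p x)
    refine ⟨i + 1, ?_⟩
    intro hx
    exact hx ⟨i, Nat.lt_succ_self i, hi⟩
  have hlim := tendsto_measure_iInter_atTop (μ := μ) (fun N => (hBm N).nullMeasurableSet) hanti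
    ⟨0, measure_ne_top _ _⟩
  rw [hint, measure_empty] at hlim
  have hlim2 : Tendsto (fun N => μ.real (B N)) atTop (𝓝 0) := by
    have := (ENNReal.tendsto_toReal ENNReal.zero_ne_top).comp hlim
    rw [ENNReal.toReal_zero] at this
    exact this
  obtain ⟨N, hN⟩ := (hlim2.eventually_lt_const hε).exists
  exact ⟨e '' {i | i < N}, (Set.finite_lt_nat N).image e, hN⟩

/-- the quotients of elements of a set of units -/
def FC_quot {K : Type*} [Field K] (Φ : Set Kˣ) : Set K :=
  Set.image2 (fun a b : Kˣ => (a : K) / (b : K)) Φ Φ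

theorem FC_quot_fin {K : Type*} [Field K] {Φ : Set Kˣ} (hΦ : Φ.Finite) : (FC_quot Φ).Finite :=
  hΦ.image2 _ hΦ

theorem FC_aux_pre {X : Type*} [MeasurableSpace X] (μ : Measure X)
    (S : X → X) (hS : MeasurePreserving S μ μ) (B : Set X) (hB : MeasurableSet B) (n : ℕ) :
    μ.real {x | S^[n] x ∈ B} = μ.real B := by
  have h := (hS.iterate n).measure_preimage hB.nullMeasurableSet
  unfold Measure.real
  rw [← h]
  rfl

/-- the root of the constant is not a root of unity -/
theorem FC_aux_root {X K : Type*} [MeasurableSpace X] (μ : Measure X) [IsProbabilityMeasure μ]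
    (S : X → X) (hS : MeasurePreserving S μ μ) [Field K] [Countable K] (φ : X → Kˣ) (f : ℕ)
    (hf : 0 < f) (l : Kˣ) (p : X → Kˣ) (hp : ∀ g : Kˣ, MeasurableSet {x | p x = g})
    (h : ∀ᵐ x ∂μ, ∀ n, coc S φ n x ^ f = l ^ n * p (S^[n] x) / p x)
    (H2 : ∀ g : Kˣ, Tendsto (fun n => μ.real {x | coc S φ n x = g}) atTop (𝓝 0))
    (r : ℕ) (hr : 0 < r) (hl : l ^ r = 1) : False := by
  haveI : Countable Kˣ := Units.val_injective.countable
  obtain ⟨Φ, hΦ, hΦm⟩ := FC_aux_tight μ p hp (1 / 4) (by norm_num)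
  have hfin : {g : Kˣ | ((g : K)) ^ f ∈ FC_quot Φ}.Finite := by
    have h1 := FC_aux_fin hf (FC_quot_fin hΦ)
    exact Set.Finite.preimage (f := fun g : Kˣ => (g : K)) (Units.val_injective.injOn) h1
  set R : Finset Kˣ := hfin.toFinset with hR
  have hmemR : ∀ g : Kˣ, g ∈ R ↔ ((g : K)) ^ f ∈ FC_quot Φ := by
    intro g; rw [hR, Set.Finite.mem_toFinset]; rfl
  have hBm := FC_aux_meas p hp Φ hΦ
  -- lower bound
  have hlow : ∀ n : ℕ, 1 / 2 < ∑ g ∈ R, μ.real {x | coc S φ (r * n) x = g} := by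
    intro n
    have h1 : μ.real {x | coc S φ (r * n) x ∉ R}
        ≤ μ.real ({x | p x ∉ Φ} ∪ {x | S^[r * n] x ∈ {x | p x ∉ Φ}}) := by
      unfold Measure.real
      apply ENNReal.toReal_mono (measure_ne_top _ _)
      apply measure_mono_ae
      filter_upwards [h] with x hx hxR
      by_contra hcon
      have hcon' : ¬ (p x ∉ Φ ∨ p (S^[r * n] x) ∉ Φ) := hcon
      push Not at hcon'
      apply hxR
      show coc S φ (r * n) x ∈ R
      rw [hmemR]
      have h2 := hx (r * n)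
      rw [pow_mul, hl, one_pow, one_mul] at h2
      refine ⟨p (S^[r * n] x), hcon'.2, p x, hcon'.1, ?_⟩
      have h3 := congrArg (fun u : Kˣ => (u : K)) h2
      simp only [Units.val_pow_eq_pow_val, Units.val_div_eq_div_val] at h3
      exact h3.symm
    have h2 : μ.real ({x | p x ∉ Φ} ∪ {x | S^[r * n] x ∈ {x | p x ∉ Φ}}) < 1 / 2 := by
      refine lt_of_le_of_lt (measureReal_union_le _ _) ?_
      rw [FC_aux_pre μ S hS _ hBm]
      linarith
    have h3 : μ.real {x | coc S φ (r * n) x ∈ R} ≤ ∑ g ∈ R, μ.real {x | coc S φ (r * n) x = g} := by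
      have h4 : {x | coc S φ (r * n) x ∈ R} = ⋃ g ∈ R, {x | coc S φ (r * n) x = g} := by
        ext x; simp
      rw [h4]
      exact measureReal_biUnion_finset_le _ _
    have h5 : (1 : ℝ) ≤ μ.real {x | coc S φ (r * n) x ∈ R} + μ.real {x | coc S φ (r * n) x ∉ R} := by
      have h6 : (Set.univ : Set X)
          = {x | coc S φ (r * n) x ∈ R} ∪ {x | coc S φ (r * n) x ∉ R} := by
        ext x; simp [em]
      calc (1 : ℝ) = μ.real Set.univ := by simp
        _ ≤ _ := by
          conv_lhs => rw [h6]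
          exact measureReal_union_le _ _
    linarith
  have hlim : Tendsto (fun n : ℕ => ∑ g ∈ R, μ.real {x | coc S φ (r * n) x = g}) atTop (𝓝 0) := by
    have h1 : Tendsto (fun n : ℕ => ∑ g ∈ R, μ.real {x | coc S φ n x = g}) atTop
        (𝓝 (∑ g ∈ R, (0 : ℝ))) := tendsto_finset_sum _ fun g _ => H2 g
    rw [Finset.sum_const_zero] at h1
    exact h1.comp (tendsto_id.const_mul_atTop' hr)
  obtain ⟨n, hn⟩ := (hlim.eventually_lt_const (show (0:ℝ) < 1 / 2 by norm_num)).exists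
  exact absurd (hlow n) (not_lt.2 hn.le)

theorem FC_gaps_mono {s : ℕ} {G G' : ℕ} (h : G' ≤ G) {n : Fin s → ℕ} (hn : Gaps G n) :
    Gaps G' n := fun i j hij => le_trans (Nat.add_le_add_left h _) (hn i j hij)

theorem final_const {X K : Type*} [MeasurableSpace X] (μ : Measure X) [IsProbabilityMeasure μ]
    (S : X → X) (hS : MeasurePreserving S μ μ) [Field K] [Countable K] (φ : X → Kˣ) (f : ℕ)
    (hf : 0 < f) (l : Kˣ) (p : X → Kˣ) (hp : ∀ g : Kˣ, MeasurableSet {x | p x = g})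
    (h : ∀ᵐ x ∂μ, ∀ n, coc S φ n x ^ f = l ^ n * p (S^[n] x) / p x)
    (H2 : ∀ g : Kˣ, Tendsto (fun n => μ.real {x | coc S φ n x = g}) atTop (𝓝 0))
    {s : ℕ} (w : Fin s → K) (hw : w ≠ 0) (ε : ℝ) (hε : 0 < ε) :
    ∃ G : ℕ, ∀ n : Fin s → ℕ, Gaps G n →
      μ.real {x | ∑ i, w i * cv S φ (n i) x = 0} < ε := by
  haveI : Countable Kˣ := Units.val_injective.countable
  set K' := AlgebraicClosure K with hK'
  set ι : K →+* K' := algebraMap K K' with hι
  have hinj : Function.Injective ι := ι.injective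
  obtain ⟨z, hz⟩ := IsAlgClosed.exists_pow_nat_eq (ι (l : K)) hf
  have hz0 : z ≠ 0 := by
    rintro rfl
    rw [zero_pow hf.ne'] at hz
    exact l.ne_zero (hinj (by rw [← hz, map_zero]))
  have hzr : ∀ r : ℕ, 0 < r → z ^ r ≠ 1 := by
    intro r hr h1
    apply FC_aux_root μ S hS φ f hf l p hp h H2 r hr
    apply Units.ext
    apply hinj
    rw [Units.val_pow_eq_pow_val, map_pow, ← hz, ← pow_mul, mul_comm, pow_mul, h1, one_pow,
      Units.val_one, map_one]
  obtain ⟨Φ, hΦ, hΦm⟩ := FC_aux_tight μ p hp (ε / (2 * s + 2)) (by positivity)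
  have hBm := FC_aux_meas p hp Φ hΦ
  -- the finite set of roots
  have hA : (ι '' FC_quot Φ).Finite := (FC_quot_fin hΦ).image _
  have hRt := FC_aux_fin hf hA
  set Rt : Set K' := {g : K' | g ^ f ∈ ι '' FC_quot Φ} with hRtdef
  have hRt0 : ∀ g ∈ Rt, g ≠ 0 := by
    rintro g ⟨a, ⟨u, -, v, -, rfl⟩, hg⟩ rfl
    rw [zero_pow hf.ne'] at hg
    have h1 : (u : K) / (v : K) = 0 := hinj (by rw [hg, map_zero])
    rcases div_eq_zero_iff.1 h1 with h2 | h2
    · exact u.ne_zero h2
    · exact v.ne_zero h2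
  haveI : Finite Rt := hRt
  obtain ⟨i0, hi0⟩ := Function.ne_iff.1 hw
  have hgap : ∀ c : Fin s → Rt, ∃ G : ℕ, ∀ n : Fin s → ℕ, Gaps G n →
      ∑ i, (ι (w i) * (c i : K')) * z ^ n i ≠ 0 := by
    intro c
    apply gap z hz0 hzr
    intro h1
    have h2 := congrFun h1 i0
    simp only [Pi.zero_apply] at h2
    rcases mul_eq_zero.1 h2 with h3 | h3
    · exact hi0 (hinj (by rw [h3, Pi.zero_apply, map_zero]))
    · exact hRt0 _ (c i0).2 h3
  choose Gf hGf using hgap
  obtain ⟨G, hG⟩ := (Set.finite_range Gf).bddAbove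
  refine ⟨G, fun n hn => ?_⟩
  have h1 : μ.real {x | ∑ i, w i * cv S φ (n i) x = 0}
      ≤ μ.real ({x | p x ∉ Φ} ∪ ⋃ i ∈ (Finset.univ : Finset (Fin s)),
        {x | S^[n i] x ∈ {x | p x ∉ Φ}}) := by
    unfold Measure.real
    apply ENNReal.toReal_mono (measure_ne_top _ _)
    apply measure_mono_ae
    filter_upwards [h] with x hx hx0
    by_contra hcon
    have hcon' : ¬ (p x ∉ Φ ∨ x ∈ ⋃ i ∈ (Finset.univ : Finset (Fin s)),
        {x | S^[n i] x ∈ {x | p x ∉ Φ}}) := hcon
    push Not at hcon'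
    obtain ⟨hpx, hpn⟩ := hcon'
    have hpn' : ∀ i, p (S^[n i] x) ∈ Φ := by
      intro i
      by_contra h3
      exact hpn (Set.mem_biUnion (Finset.mem_univ i) h3)
    have hrho : ∀ i, ι (cv S φ (n i) x) / z ^ (n i) ∈ Rt := by
      intro i
      refine ⟨(p (S^[n i] x) : K) / (p x : K), ⟨p (S^[n i] x), hpn' i, p x, hpx, rfl⟩, ?_⟩
      have h2 := congrArg (fun u : Kˣ => (u : K)) (hx (n i))
      simp only [Units.val_pow_eq_pow_val, Units.val_div_eq_div_val, Units.val_mul] at h2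
      rw [div_pow]
      unfold cv
      rw [← map_pow, h2, ← pow_mul, mul_comm (n i) f, pow_mul, hz, ← map_pow, ← map_div₀]
      congr 1
      have hl0 : (l : K) ^ (n i) ≠ 0 := pow_ne_zero _ l.ne_zero
      have hp0 : (p x : K) ≠ 0 := (p x).ne_zero
      field_simp
    set c : Fin s → Rt := fun i => ⟨_, hrho i⟩ with hc
    have h4 := hGf c n (FC_gaps_mono (hG ⟨c, rfl⟩) hn)
    apply h4
    have h5 : ∑ i, w i * cv S φ (n i) x = 0 := hx0
    have h6 := congrArg ι h5
    rw [map_sum, map_zero] at h6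
    rw [← h6]
    apply Finset.sum_congr rfl
    intro i _
    have hzn : z ^ n i ≠ 0 := pow_ne_zero _ hz0
    simp only [hc]
    rw [map_mul, mul_assoc, div_mul_cancel₀ _ hzn]
  refine lt_of_le_of_lt h1 ?_
  have h2 : μ.real ({x | p x ∉ Φ} ∪ ⋃ i ∈ (Finset.univ : Finset (Fin s)),
        {x | S^[n i] x ∈ {x | p x ∉ Φ}})
      ≤ ε / (2 * s + 2) + s * (ε / (2 * s + 2)) := by
    refine (measureReal_union_le _ _).trans ?_
    apply add_le_add hΦm.le
    refine (measureReal_biUnion_finset_le _ _).trans ?_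
    calc ∑ i : Fin s, μ.real {x | S^[n i] x ∈ {x | p x ∉ Φ}}
        ≤ ∑ i : Fin s, ε / (2 * s + 2) := by
          apply Finset.sum_le_sum
          intro i _
          rw [FC_aux_pre μ S hS _ hBm]
          exact hΦm.le
      _ = s * (ε / (2 * s + 2)) := by simp
  refine lt_of_le_of_lt h2 ?_
  have h3 : ε / (2 * s + 2) + s * (ε / (2 * s + 2)) = ε / 2 := by
    have : (2 * (s : ℝ) + 2) ≠ 0 := by positivity
    field_simp
    ring
  rw [h3]
  linarith

end H567MM
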