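import Pool.Agent.H567R2.MMF.Base
import Pool.Agent.H567R2.MMF.FA

/-! # FF: from tensor functions to sets (helper781) -/

namespace H567MM

open MeasureTheory Filter Topology

/-- the filter of large gaps -/
def FF_gap (k : ℕ) : Filter (Fin (k + 1) → ℕ) :=
  ⨅ G : ℕ, 𝓟 {n | n 0 = 0 ∧ ∀ j : Fin k, n j.castSucc + G ≤ n j.succ}

theorem FF_eventually (k : ℕ) (p : (Fin (k + 1) → ℕ) → Prop) :
    (∀ᶠ n in FF_gap k, p n) ↔ ∃ G : ℕ, ∀ n : Fin (k + 1) → ℕ, n 0 = 0 →
      (∀ j : Fin k, n j.castSucc + G ≤ n j.succ) → p n := by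
  unfold FF_gap
  rw [Filter.eventually_iff, Filter.mem_iInf_of_directed]
  · simp only [Filter.mem_principal]
    constructor
    · rintro ⟨G, hG⟩
      exact ⟨G, fun n h0 h1 => hG ⟨h0, h1⟩⟩
    · rintro ⟨G, hG⟩
      exact ⟨G, fun n hn => hG n hn.1 hn.2⟩
  · intro G G'
    refine ⟨max G G', ?_, ?_⟩
    · show 𝓟 _ ≤ 𝓟 _
      rw [Filter.principal_mono]
      intro n hn
      exact ⟨hn.1, fun j => (Nat.add_le_add_left (le_max_left _ _) _).trans (hn.2 j)⟩
    · show 𝓟 _ ≤ 𝓟 _
      rw [Filter.principal_mono]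
      intro n hn
      exact ⟨hn.1, fun j => (Nat.add_le_add_left (le_max_right _ _) _).trans (hn.2 j)⟩

theorem FF_ten_measurable {X M : Type*} [MeasurableSpace X] [AddCommGroup M] (A : Set X)
    (hA : MeasurableSet A) (m : M) : Measurable (ten A m) := by
  unfold ten
  refine Measurable.mul ?_ ?_
  · exact (measurable_const.indicator hA).comp measurable_fst
  · have h1 : Measurable (fun (y : Dual M) (m : M) => (y m : ℂ)) := comap_measurable _
    exact ((measurable_pi_apply m).comp h1).comp measurable_snd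

theorem FF_ten_norm {X M : Type*} [AddCommGroup M] (A : Set X) (m : M) (z : X × Dual M) :
    ‖ten A m z‖ ≤ 1 := by
  unfold ten
  rw [norm_mul, Circle.norm_coe, mul_one]
  by_cases h : z.1 ∈ A
  · simp [h]
  · simp [h]

/-- the step: from tensor functions to a set in one coordinate -/
theorem FF_step {Z ι : Type*} [MeasurableSpace Z] (P : Measure Z) [IsProbabilityMeasure P]
    (l : Filter ι) (S : ι → Z → Z) (hS : ∀ n, MeasurePreserving (S n) P P)
    (W : ι → Z → ℂ) (hW : ∀ n, Measurable (W n)) (hW1 : ∀ n z, ‖W n z‖ ≤ 1) (J : ℂ)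
    (hJ : ‖J‖ ≤ 1) (g : Z → ℂ) (hg : Measurable g) (hg1 : ∀ z, ‖g z‖ ≤ 1)
    (happ : ∀ ε : ℝ, 0 < ε → ∃ (N : ℕ) (c : Fin N → ℂ) (t : Fin N → Z → ℂ),
      (∀ i, Measurable (t i) ∧ (∀ z, ‖t i z‖ ≤ 1) ∧
        Tendsto (fun n => ∫ z, t i (S n z) * W n z ∂P) l (𝓝 ((∫ z, t i z ∂P) * J))) ∧
      ∫ z, ‖g z - ∑ i, c i * t i z‖ ∂P < ε) :
    Tendsto (fun n => ∫ z, g (S n z) * W n z ∂P) l (𝓝 ((∫ z, g z ∂P) * J)) := by
  rw [Metric.tendsto_nhds]
  intro ε hε
  obtain ⟨N, c, t, ht, hgt⟩ := happ (ε / 3) (by positivity)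
  -- the approximating function
  have hintt : ∀ i, Integrable (t i) P := fun i =>
    Integrable.of_bound (ht i).1.aestronglyMeasurable 1 (Filter.Eventually.of_forall (ht i).2.1)
  have hmeas' : Measurable (fun z => ∑ i, c i * t i z) :=
    Finset.measurable_sum _ fun i _ => measurable_const.mul (ht i).1
  have hint' : Integrable (fun z => ∑ i, c i * t i z) P :=
    integrable_finsetSum _ fun i _ => (hintt i).const_mul (c i)
  have hintg : Integrable g P :=
    Integrable.of_bound hg.aestronglyMeasurable 1 (Filter.Eventually.of_forall hg1)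
  have htend : Tendsto (fun n => ∑ i, c i * ∫ z, t i (S n z) * W n z ∂P) l
      (𝓝 (∑ i, c i * ((∫ z, t i z ∂P) * J))) :=
    tendsto_finsetSum _ fun i _ => ((ht i).2.2).const_mul (c i)
  rw [Metric.tendsto_nhds] at htend
  filter_upwards [htend (ε / 3) (by positivity)] with n hn
  have hcomp : ∀ f : Z → ℂ, Measurable f → Integrable f P →
      Integrable (fun z => f (S n z) * W n z) P := by
    intro f hf hfi
    have h1 : Integrable (fun z => f (S n z)) P := (hS n).integrable_comp_of_integrable hfi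
    exact h1.mul_bdd (c := 1) (hW n).aestronglyMeasurable (Filter.Eventually.of_forall (hW1 n))
  have e1 : ∫ z, (∑ i, c i * t i (S n z)) * W n z ∂P = ∑ i, c i * ∫ z, t i (S n z) * W n z ∂P := by
    have : (fun z => (∑ i, c i * t i (S n z)) * W n z) =
        fun z => ∑ i, c i * (t i (S n z) * W n z) := by
      funext z
      rw [Finset.sum_mul]
      exact Finset.sum_congr rfl fun i _ => by ring
    rw [this, integral_finsetSum _ fun i _ => (hcomp _ (ht i).1 (hintt i)).const_mul (c i)]
    exact Finset.sum_congr rfl fun i _ => integral_const_mul _ _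
  have e2 : (∫ z, (∑ i, c i * t i z) ∂P) * J = ∑ i, c i * ((∫ z, t i z ∂P) * J) := by
    rw [integral_finsetSum _ fun i _ => (hintt i).const_mul (c i), Finset.sum_mul]
    refine Finset.sum_congr rfl fun i _ => ?_
    rw [integral_const_mul]
    ring
  have e3 : ‖(∫ z, g (S n z) * W n z ∂P) - ∫ z, (∑ i, c i * t i (S n z)) * W n z ∂P‖ < ε / 3 := by
    rw [← integral_sub (hcomp g hg hintg) (hcomp _ hmeas' hint')]
    refine (norm_integral_le_integral_norm _).trans_lt ?_
    have hdi : Integrable (fun z => ‖g z - ∑ i, c i * t i z‖) P := (hintg.sub hint').norm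
    have h3 : ∫ z, ‖g (S n z) * W n z - (∑ i, c i * t i (S n z)) * W n z‖ ∂P ≤
        ∫ z, ‖g (S n z) - ∑ i, c i * t i (S n z)‖ ∂P := by
      refine integral_mono (((hcomp g hg hintg).sub (hcomp _ hmeas' hint')).norm)
        ((hS n).integrable_comp_of_integrable hdi) fun z => ?_
      show ‖g (S n z) * W n z - (∑ i, c i * t i (S n z)) * W n z‖ ≤ _
      rw [← sub_mul, norm_mul]
      calc ‖g (S n z) - ∑ i, c i * t i (S n z)‖ * ‖W n z‖
          ≤ ‖g (S n z) - ∑ i, c i * t i (S n z)‖ * 1 :=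
            mul_le_mul_of_nonneg_left (hW1 n z) (norm_nonneg _)
        _ = _ := mul_one _
    refine h3.trans_lt ?_
    have h4 : ∫ z, ‖g (S n z) - ∑ i, c i * t i (S n z)‖ ∂P =
        ∫ z, ‖g z - ∑ i, c i * t i z‖ ∂P := by
      have h5 := integral_map (μ := P) (φ := S n) (hS n).measurable.aemeasurable
        (f := fun z => ‖g z - ∑ i, c i * t i z‖)
        ((hg.sub hmeas').norm.aestronglyMeasurable)
      rw [(hS n).map_eq] at h5
      exact h5.symm
    rw [h4]
    exact hgt
  have e4 : ‖(∫ z, (∑ i, c i * t i z) ∂P) * J - (∫ z, g z ∂P) * J‖ < ε / 3 := by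
    rw [← sub_mul, ← integral_sub hint' hintg, norm_mul]
    have h6 : ‖∫ z, ((∑ i, c i * t i z) - g z) ∂P‖ ≤ ∫ z, ‖g z - ∑ i, c i * t i z‖ ∂P := by
      refine (norm_integral_le_integral_norm _).trans (le_of_eq ?_)
      exact integral_congr_ae (Filter.Eventually.of_forall fun z => norm_sub_rev _ _)
    calc ‖∫ z, ((∑ i, c i * t i z) - g z) ∂P‖ * ‖J‖
        ≤ ‖∫ z, ((∑ i, c i * t i z) - g z) ∂P‖ * 1 :=
          mul_le_mul_of_nonneg_left hJ (norm_nonneg _)
      _ ≤ ∫ z, ‖g z - ∑ i, c i * t i z‖ ∂P := by rw [mul_one]; exact h6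
      _ < ε / 3 := hgt
  rw [dist_eq_norm] at hn ⊢
  rw [← e1, ← e2] at hn
  calc ‖(∫ z, g (S n z) * W n z ∂P) - (∫ z, g z ∂P) * J‖
      = ‖((∫ z, g (S n z) * W n z ∂P) - ∫ z, (∑ i, c i * t i (S n z)) * W n z ∂P) +
          ((∫ z, (∑ i, c i * t i (S n z)) * W n z ∂P) - (∫ z, (∑ i, c i * t i z) ∂P) * J) +
          ((∫ z, (∑ i, c i * t i z) ∂P) * J - (∫ z, g z ∂P) * J)‖ := by
        congr 1; ring
    _ ≤ _ := norm_add₃_le
    _ < ε / 3 + ε / 3 + ε / 3 := by
        exact add_lt_add (add_lt_add e3 hn) e4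
    _ = ε := by ring

theorem mix_of_ten {X M : Type*} [MeasurableSpace X] (μ : Measure X)
    [IsProbabilityMeasure μ] [AddCommGroup M] [Countable M] (ν : Measure (Dual M))
    [IsProbabilityMeasure ν] (T : X × Dual M → X × Dual M)
    (hT : MeasurePreserving T (μ.prod ν) (μ.prod ν)) (k : ℕ)
    (h : ∀ (A : Fin (k + 1) → Set X) (m : Fin (k + 1) → M), (∀ j, MeasurableSet (A j)) →
      ∀ ε : ℝ, 0 < ε → ∃ G : ℕ, ∀ n : Fin (k + 1) → ℕ, n 0 = 0 →
      (∀ j : Fin k, n j.castSucc + G ≤ n j.succ) →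
      ‖∫ z, ∏ j, ten (A j) (m j) (T^[n j] z) ∂(μ.prod ν) -
        ∏ j, ∫ z, ten (A j) (m j) z ∂(μ.prod ν)‖ < ε) : MixOrd (μ.prod ν) T k := by
  classical
  obtain ⟨P, hP⟩ : ∃ P : Measure (X × Dual M), P = μ.prod ν := ⟨_, rfl⟩
  have : IsProbabilityMeasure P := by rw [hP]; infer_instance
  rw [← hP] at hT ⊢
  -- the induction
  have key : ∀ i : ℕ, i ≤ k + 1 → ∀ F : Fin (k + 1) → X × Dual M → ℂ,
      (∀ j : Fin (k + 1), j.val < i → ∃ B : Set (X × Dual M), MeasurableSet B ∧
        F j = B.indicator (fun _ => (1 : ℂ))) →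
      (∀ j : Fin (k + 1), i ≤ j.val → ∃ (A : Set X) (m : M), MeasurableSet A ∧ F j = ten A m) →
      Tendsto (fun n : Fin (k + 1) → ℕ => ∫ z, ∏ j, F j (T^[n j] z) ∂P) (FF_gap k)
        (𝓝 (∏ j, ∫ z, F j z ∂P)) := by
    intro i
    induction i with
    | zero =>
      intro _ F _ hF
      choose A m hA hFA using fun j => hF j (Nat.zero_le _)
      rw [Metric.tendsto_nhds]
      intro ε hε
      rw [FF_eventually]
      obtain ⟨G, hG⟩ := h A m hA ε hε
      refine ⟨G, fun n h0 h1 => ?_⟩
      have := hG n h0 h1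
      rw [dist_eq_norm]
      simp only [hFA, hP]
      exact this
    | succ i ih =>
      intro hik F hF1 hF2
      have ih' := ih (by omega)
      set i0 : Fin (k + 1) := ⟨i, by omega⟩ with hi0
      have hFm : ∀ j, Measurable (F j) ∧ ∀ z, ‖F j z‖ ≤ 1 := by
        intro j
        rcases lt_or_ge j.val (i + 1) with hj | hj
        · obtain ⟨B, hB, e⟩ := hF1 j hj
          rw [e]
          refine ⟨measurable_const.indicator hB, fun z => ?_⟩
          by_cases hz : z ∈ B
          · simp [hz]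
          · simp [hz]
        · obtain ⟨A, m, hA, e⟩ := hF2 j hj
          rw [e]
          exact ⟨FF_ten_measurable A hA m, FF_ten_norm A m⟩
      obtain ⟨B, hB, hFB⟩ := hF1 i0 (by simp [hi0])
      have hiter : ∀ n, MeasurePreserving (T^[n]) P P := fun n => hT.iterate n
      have hprod : ∀ (g : X × Dual M → ℂ) (n : Fin (k + 1) → ℕ) (z : X × Dual M),
          ∏ j, (Function.update F i0 g) j (T^[n j] z) =
            g (T^[n i0] z) * ∏ j ∈ Finset.univ.erase i0, F j (T^[n j] z) := by
        intro g n z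
        rw [← Finset.mul_prod_erase _ _ (Finset.mem_univ i0), Function.update_self]
        congr 1
        refine Finset.prod_congr rfl fun j hj => ?_
        rw [Function.update_of_ne (Finset.ne_of_mem_erase hj)]
      have hprod2 : ∀ (g : X × Dual M → ℂ),
          ∏ j, ∫ z, (Function.update F i0 g) j z ∂P =
            (∫ z, g z ∂P) * ∏ j ∈ Finset.univ.erase i0, ∫ z, F j z ∂P := by
        intro g
        rw [← Finset.mul_prod_erase _ _ (Finset.mem_univ i0), Function.update_self]
        congr 1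
        refine Finset.prod_congr rfl fun j hj => ?_
        rw [Function.update_of_ne (Finset.ne_of_mem_erase hj)]
      have hself : Function.update F i0 (F i0) = F := Function.update_eq_self _ _
      have e1 : (fun n : Fin (k + 1) → ℕ => ∫ z, ∏ j, F j (T^[n j] z) ∂P) =
          fun n => ∫ z, F i0 (T^[n i0] z) * ∏ j ∈ Finset.univ.erase i0, F j (T^[n j] z) ∂P := by
        funext n
        refine integral_congr_ae (Filter.Eventually.of_forall fun z => ?_)
        have := hprod (F i0) n z
        rw [hself] at this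
        exact this
      have e2 : ∏ j, ∫ z, F j z ∂P =
          (∫ z, F i0 z ∂P) * ∏ j ∈ Finset.univ.erase i0, ∫ z, F j z ∂P := by
        have := hprod2 (F i0)
        rw [hself] at this
        exact this
      rw [e1, e2]
      refine FF_step P (FF_gap k) (fun n => T^[n i0]) (fun n => hiter _)
        (fun n z => ∏ j ∈ Finset.univ.erase i0, F j (T^[n j] z)) ?_ ?_ _ ?_ (F i0)
        (hFm i0).1 (hFm i0).2 ?_
      · intro n
        exact Finset.measurable_prod _ fun j _ => (hFm j).1.comp (hiter _).measurable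
      · intro n z
        rw [norm_prod]
        exact Finset.prod_le_one (fun j _ => norm_nonneg _) fun j _ => (hFm j).2 _
      · rw [norm_prod]
        refine Finset.prod_le_one (fun j _ => norm_nonneg _) fun j _ => ?_
        calc ‖∫ z, F j z ∂P‖ ≤ 1 * P.real Set.univ :=
              norm_integral_le_of_norm_le_const (Filter.Eventually.of_forall (hFm j).2)
          _ = 1 := by simp
      · intro ε hε
        obtain ⟨N, c, A, m, hA, hlt⟩ := ten_dense μ ν B hB ε hε
        refine ⟨N, c, fun l => ten (A l) (m l), fun l => ⟨FF_ten_measurable _ (hA l) _,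
          FF_ten_norm _ _, ?_⟩, ?_⟩
        · have h1 := ih' (Function.update F i0 (ten (A l) (m l))) ?_ ?_
          · simp only [hprod, hprod2] at h1
            exact h1
          · intro j hj
            rw [Function.update_of_ne (by rintro rfl; simp [hi0] at hj)]
            exact hF1 j (by omega)
          · intro j hj
            by_cases hji : j = i0
            · subst hji
              rw [Function.update_self]
              exact ⟨A l, m l, hA l, rfl⟩
            · rw [Function.update_of_ne hji]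
              refine hF2 j ?_
              have : j.val ≠ i := fun h => hji (Fin.ext h)
              omega
        · rw [hFB, hP]
          exact hlt
  intro A hA ε hε
  have h1 := key (k + 1) le_rfl (fun j => (A j).indicator (fun _ => (1 : ℂ)))
    (fun j _ => ⟨A j, hA j, rfl⟩) (fun j hj => absurd j.isLt (by omega))
  rw [Metric.tendsto_nhds] at h1
  obtain ⟨G, hG⟩ := (FF_eventually k _).1 (h1 ε hε)
  refine ⟨G, fun n h0 hn => ?_⟩
  have h2 := hG n h0 hn
  have hmeas : MeasurableSet (⋂ j, T^[n j] ⁻¹' A j) :=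
    MeasurableSet.iInter fun j => (hT.iterate (n j)).measurable (hA j)
  have e1 : ∫ z, ∏ j, (A j).indicator (fun _ => (1 : ℂ)) (T^[n j] z) ∂P =
      ((P.real (⋂ j, T^[n j] ⁻¹' A j) : ℝ) : ℂ) := by
    have e2 : (fun z => ∏ j, (A j).indicator (fun _ => (1 : ℂ)) (T^[n j] z)) =
        (⋂ j, T^[n j] ⁻¹' A j).indicator (fun _ => (1 : ℂ)) := by
      funext z
      by_cases hz : z ∈ ⋂ j, T^[n j] ⁻¹' A j
      · rw [Set.indicator_of_mem hz]
        refine Finset.prod_eq_one fun j _ => ?_
        have hj : T^[n j] z ∈ A j := Set.mem_iInter.1 hz j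
        exact Set.indicator_of_mem hj (fun _ => (1 : ℂ))
      · rw [Set.indicator_of_notMem hz]
        rw [Set.mem_iInter] at hz
        push Not at hz
        obtain ⟨j, hj⟩ := hz
        have hj' : T^[n j] z ∉ A j := hj
        exact Finset.prod_eq_zero (Finset.mem_univ j)
          (Set.indicator_of_notMem hj' (fun _ => (1 : ℂ)))
    rw [e2, integral_indicator hmeas]
    simp [Measure.real]
  have e3 : ∏ j, ∫ z, (A j).indicator (fun _ => (1 : ℂ)) z ∂P =
      ((∏ j, P.real (A j) : ℝ) : ℂ) := by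
    rw [Complex.ofReal_prod]
    refine Finset.prod_congr rfl fun j _ => ?_
    rw [integral_indicator (hA j)]
    simp [Measure.real]
  rw [dist_eq_norm, e1, e3, ← Complex.ofReal_sub, Complex.norm_real, Real.norm_eq_abs] at h2
  exact h2

end H567MM
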