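import Pool.Agent.H567R2.MMF.Base

/-! FI: the integral of a nontrivial character with respect to the Haar probability measure. -/

namespace H567MM

open MeasureTheory Filter Topology

/-- the homomorphism `q ↦ exp (2 π i q)` -/
noncomputable def FI_aux_exp : ℚ →+ Additive Circle where
  toFun q := Additive.ofMul (Circle.exp (2 * Real.pi * (q : ℝ)))
  map_zero' := by simp
  map_add' a b := by
    rw [← ofMul_mul, ← Circle.exp_add]
    congr 2
    push_cast
    ring

theorem FI_aux_exp_ker (q : ℚ) (h : FI_aux_exp q = 0) : (q : AddCircle (1 : ℚ)) = 0 := by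
  have h1 : Circle.exp (2 * Real.pi * (q : ℝ)) = Circle.exp 0 := by
    rw [Circle.exp_zero]
    exact h
  rw [Circle.exp_eq_exp] at h1
  obtain ⟨n, hn⟩ := h1
  have h2 : (q : ℝ) = n := by
    have h3 : (2 * Real.pi) * (q : ℝ) = (2 * Real.pi) * n := by rw [hn]; ring
    exact mul_left_cancel₀ (by positivity) h3
  have h4 : q = (n : ℚ) := by exact_mod_cast h2
  rw [h4, AddCircle.coe_eq_zero_iff]
  exact ⟨n, by simp⟩

/-- the homomorphism of `ℚ/ℤ` -/
noncomputable def FI_aux_circ : AddCircle (1 : ℚ) →+ Additive Circle :=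
  QuotientAddGroup.lift _ FI_aux_exp (by
    intro q hq
    rw [AddSubgroup.mem_zmultiples_iff] at hq
    obtain ⟨n, rfl⟩ := hq
    rw [AddMonoidHom.mem_ker]
    show Circle.exp (2 * Real.pi * (((n • (1 : ℚ)) : ℚ) : ℝ)) = 1
    have : (2 * Real.pi * (((n • (1 : ℚ)) : ℚ) : ℝ)) = 0 + n * (2 * Real.pi) := by
      push_cast
      simp
      ring
    rw [this, ← Circle.exp_zero]
    exact Circle.exp_eq_exp.mpr ⟨n, rfl⟩)

theorem FI_aux_char {M : Type*} [AddCommGroup M] (m : M) (hm : m ≠ 0) :
    ∃ z : Dual M, z m ≠ 1 := by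
  obtain ⟨c, hc⟩ := CharacterModule.exists_character_apply_ne_zero_of_ne_zero hm
  refine ⟨AddChar.toAddMonoidHomEquiv.symm (FI_aux_circ.comp c), ?_⟩
  intro h
  apply hc
  have h1 : FI_aux_circ (c m) = 0 := h
  revert h1
  generalize c m = a
  intro h1
  induction a using QuotientAddGroup.induction_on with
  | H q => exact FI_aux_exp_ker q h1

theorem FI_aux_meas {M : Type*} [AddCommGroup M] (m : M) :
    Measurable fun y : Dual M => ((y m : Circle) : ℂ) :=
  (measurable_pi_apply m).comp (comap_measurable (fun (y : Dual M) (m : M) => (y m : ℂ)))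

theorem int_char {M : Type*} [AddCommGroup M] (ν : Measure (Dual M)) (hν : IsHaarProb ν) (m : M)
    (hm : m ≠ 0) : ∫ y, ((y m : Circle) : ℂ) ∂ν = 0 := by
  obtain ⟨z, hz⟩ := FI_aux_char m hm
  have h1 := hν.2 z
  have h2 : ∫ y, ((y m : Circle) : ℂ) ∂ν = (z m : ℂ) * ∫ y, ((y m : Circle) : ℂ) ∂ν := by
    conv_lhs => rw [← h1.map_eq]
    rw [integral_map h1.measurable.aemeasurable (FI_aux_meas m).aestronglyMeasurable,
      ← integral_const_mul]
    refine integral_congr_ae (Eventually.of_forall fun y => ?_)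
    simp [AddChar.mul_apply]
  have h3 : (1 - (z m : ℂ)) * ∫ y, ((y m : Circle) : ℂ) ∂ν = 0 := by
    rw [sub_mul, one_mul, ← h2, sub_self]
  rcases mul_eq_zero.mp h3 with h | h
  · exfalso
    apply hz
    have : (z m : ℂ) = 1 := (sub_eq_zero.mp h).symm
    exact Circle.ext (by simpa using this)
  · exact h

end H567MM
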