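import Pool.Agent.H567R2.MMF.Base

/-!
# MF: mixing for functions (helper602)
-/

set_option autoImplicit false

namespace H567MM

open MeasureTheory Filter Topology

section

variable {X : Type*} [MeasurableSpace X] (μ : Measure X) (T : X → X) {k : ℕ}

/-- admissible gaps -/
def MF_aux_adm (G : ℕ) (n : Fin (k + 1) → ℕ) : Prop :=
  n 0 = 0 ∧ ∀ j : Fin k, n j.castSucc + G ≤ n j.succ

theorem MF_aux_adm_mono {G G' : ℕ} (h : G ≤ G') {n : Fin (k + 1) → ℕ} (hn : MF_aux_adm G' n) :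
    MF_aux_adm G n :=
  ⟨hn.1, fun j => le_trans (Nat.add_le_add_left h _) (hn.2 j)⟩

/-- mixing for the tuple of functions -/
def MF_aux_P (F : Fin (k + 1) → X → ℂ) : Prop := ∀ ε : ℝ, 0 < ε → ∃ G : ℕ,
  ∀ n : Fin (k + 1) → ℕ, MF_aux_adm G n →
    ‖∫ x, ∏ j, F j (T^[n j] x) ∂μ - ∏ j, ∫ x, F j x ∂μ‖ < ε

/-- the other factors -/
noncomputable def MF_aux_h (F : Fin (k + 1) → X → ℂ) (i : Fin (k + 1)) (n : Fin (k + 1) → ℕ)
    (x : X) : ℂ := ∏ j ∈ Finset.univ.erase i, F j (T^[n j] x)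

noncomputable def MF_aux_c (F : Fin (k + 1) → X → ℂ) (i : Fin (k + 1)) : ℂ :=
  ∏ j ∈ Finset.univ.erase i, ∫ x, F j x ∂μ

noncomputable def MF_aux_D (F : Fin (k + 1) → X → ℂ) (i : Fin (k + 1)) (n : Fin (k + 1) → ℕ)
    (g : X → ℂ) : ℂ :=
  ∫ x, g (T^[n i] x) * MF_aux_h T F i n x ∂μ - (∫ x, g x ∂μ) * MF_aux_c μ F i

theorem MF_aux_D_eq (F : Fin (k + 1) → X → ℂ) (i : Fin (k + 1)) (n : Fin (k + 1) → ℕ)
    (g : X → ℂ) : ∫ x, ∏ j, (Function.update F i g) j (T^[n j] x) ∂μ -
      ∏ j, ∫ x, (Function.update F i g) j x ∂μ = MF_aux_D μ T F i n g := by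
  unfold MF_aux_D MF_aux_h MF_aux_c
  congr 1
  · congr 1
    funext x
    rw [← Finset.mul_prod_erase Finset.univ (fun j => (Function.update F i g) j (T^[n j] x))
      (Finset.mem_univ i), Function.update_self]
    congr 1
    refine Finset.prod_congr rfl fun j hj => ?_
    rw [Function.update_of_ne (Finset.ne_of_mem_erase hj)]
  · rw [← Finset.mul_prod_erase Finset.univ (fun j => ∫ x, (Function.update F i g) j x ∂μ)
      (Finset.mem_univ i), Function.update_self]
    congr 1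
    refine Finset.prod_congr rfl fun j hj => ?_
    rw [Function.update_of_ne (Finset.ne_of_mem_erase hj)]

variable [IsProbabilityMeasure μ]

theorem MF_aux_h_meas {T : X → X} (hT : MeasurePreserving T μ μ) {F : Fin (k + 1) → X → ℂ}
    (hF : ∀ j, Measurable (F j)) (i : Fin (k + 1)) (n : Fin (k + 1) → ℕ) :
    Measurable (MF_aux_h T F i n) := by
  unfold MF_aux_h
  exact Finset.measurable_prod _ fun j _ => (hF j).comp (hT.iterate _).measurable

theorem MF_aux_h_le {F : Fin (k + 1) → X → ℂ} {b : ℝ} (hb : ∀ j x, ‖F j x‖ ≤ b) (i : Fin (k + 1))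
    (n : Fin (k + 1) → ℕ) (x : X) : ‖MF_aux_h T F i n x‖ ≤ b ^ k := by
  unfold MF_aux_h
  rw [norm_prod]
  refine (Finset.prod_le_prod (fun _ _ => norm_nonneg _) fun j _ => hb j _).trans ?_
  rw [Finset.prod_const, Finset.card_erase_of_mem (Finset.mem_univ i), Finset.card_univ,
    Fintype.card_fin, Nat.add_sub_cancel]

theorem MF_aux_c_le {F : Fin (k + 1) → X → ℂ} {b : ℝ} (hb : ∀ j x, ‖F j x‖ ≤ b)
    (i : Fin (k + 1)) : ‖MF_aux_c μ F i‖ ≤ b ^ k := by
  unfold MF_aux_c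
  rw [norm_prod]
  have h1 : ∀ j, ‖∫ x, F j x ∂μ‖ ≤ b := by
    intro j
    have h := norm_integral_le_of_norm_le_const (μ := μ) (Filter.Eventually.of_forall (hb j))
    rwa [probReal_univ, mul_one] at h
  refine (Finset.prod_le_prod (fun _ _ => norm_nonneg _) fun j _ => h1 j).trans ?_
  rw [Finset.prod_const, Finset.card_erase_of_mem (Finset.mem_univ i), Finset.card_univ,
    Fintype.card_fin, Nat.add_sub_cancel]

theorem MF_aux_int {T : X → X} (hT : MeasurePreserving T μ μ) {F : Fin (k + 1) → X → ℂ}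
    (hF : ∀ j, Measurable (F j)) {b : ℝ} (hb : ∀ j x, ‖F j x‖ ≤ b) (i : Fin (k + 1))
    (n : Fin (k + 1) → ℕ) {g : X → ℂ} (hg : Integrable g μ) :
    Integrable (fun x => g (T^[n i] x) * MF_aux_h T F i n x) μ := by
  have h1 : Integrable (g ∘ T^[n i]) μ :=
    ((hT.iterate (n i)).integrable_comp hg.aestronglyMeasurable).2 hg
  exact h1.mul_bdd (MF_aux_h_meas μ hT hF i n).aestronglyMeasurable
    (Filter.Eventually.of_forall (MF_aux_h_le T hb i n))

theorem MF_aux_comp {T : X → X} (hT : MeasurePreserving T μ μ) (m : ℕ) {g : X → ℝ}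
    (hg : Integrable g μ) : ∫ x, g (T^[m] x) ∂μ = ∫ x, g x ∂μ := by
  have h := hT.iterate m
  have h1 : AEStronglyMeasurable g (Measure.map T^[m] μ) := by
    rw [h.map_eq]
    exact hg.aestronglyMeasurable
  rw [← integral_map h.measurable.aemeasurable h1, h.map_eq]

theorem MF_aux_D_le {T : X → X} (hT : MeasurePreserving T μ μ) {F : Fin (k + 1) → X → ℂ}
    (hF : ∀ j, Measurable (F j)) {b : ℝ} (hb0 : 0 ≤ b) (hb : ∀ j x, ‖F j x‖ ≤ b)
    (i : Fin (k + 1)) (n : Fin (k + 1) → ℕ) {g : X → ℂ} (hg : Integrable g μ) :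
    ‖MF_aux_D μ T F i n g‖ ≤ 2 * b ^ k * ∫ x, ‖g x‖ ∂μ := by
  unfold MF_aux_D
  have h0 : 0 ≤ ∫ x, ‖g x‖ ∂μ := integral_nonneg fun _ => norm_nonneg _
  have h1 : ‖∫ x, g (T^[n i] x) * MF_aux_h T F i n x ∂μ‖ ≤ b ^ k * ∫ x, ‖g x‖ ∂μ := by
    refine (norm_integral_le_integral_norm _).trans ?_
    rw [← MF_aux_comp μ hT (n i) hg.norm, ← integral_const_mul]
    refine integral_mono (MF_aux_int μ hT hF hb i n hg).norm ?_ fun x => ?_
    · refine Integrable.const_mul ?_ _
      exact ((hT.iterate (n i)).integrable_comp hg.norm.aestronglyMeasurable).2 hg.norm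
    · show ‖g (T^[n i] x) * MF_aux_h T F i n x‖ ≤ b ^ k * ‖g (T^[n i] x)‖
      rw [norm_mul, mul_comm]
      exact mul_le_mul_of_nonneg_right (MF_aux_h_le T hb i n x) (norm_nonneg _)
  have h2 : ‖(∫ x, g x ∂μ) * MF_aux_c μ F i‖ ≤ b ^ k * ∫ x, ‖g x‖ ∂μ := by
    rw [norm_mul, mul_comm]
    exact mul_le_mul (MF_aux_c_le μ hb i) (norm_integral_le_integral_norm _) (norm_nonneg _)
      (by positivity)
  refine (norm_sub_le _ _).trans ?_
  linarith

theorem MF_aux_D_add {T : X → X} (hT : MeasurePreserving T μ μ) {F : Fin (k + 1) → X → ℂ}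
    (hF : ∀ j, Measurable (F j)) {b : ℝ} (hb : ∀ j x, ‖F j x‖ ≤ b)
    (i : Fin (k + 1)) (n : Fin (k + 1) → ℕ) {f g : X → ℂ} (hf : Integrable f μ)
    (hg : Integrable g μ) :
    MF_aux_D μ T F i n (f + g) = MF_aux_D μ T F i n f + MF_aux_D μ T F i n g := by
  unfold MF_aux_D
  have e1 : ∫ x, (f + g) (T^[n i] x) * MF_aux_h T F i n x ∂μ =
      ∫ x, f (T^[n i] x) * MF_aux_h T F i n x ∂μ + ∫ x, g (T^[n i] x) * MF_aux_h T F i n x ∂μ := by
    rw [← integral_add (MF_aux_int μ hT hF hb i n hf) (MF_aux_int μ hT hF hb i n hg)]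
    congr 1
    funext x
    rw [Pi.add_apply, add_mul]
  have e2 : ∫ x, (f + g) x ∂μ = ∫ x, f x ∂μ + ∫ x, g x ∂μ := integral_add hf hg
  rw [e1, e2]
  ring

theorem MF_aux_D_ae {T : X → X} (hT : MeasurePreserving T μ μ) {F : Fin (k + 1) → X → ℂ}
    (i : Fin (k + 1)) (n : Fin (k + 1) → ℕ) {f g : X → ℂ} (h : f =ᵐ[μ] g) :
    MF_aux_D μ T F i n f = MF_aux_D μ T F i n g := by
  unfold MF_aux_D
  have e1 : ∫ x, f (T^[n i] x) * MF_aux_h T F i n x ∂μ =
      ∫ x, g (T^[n i] x) * MF_aux_h T F i n x ∂μ := by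
    refine integral_congr_ae ?_
    have h1 := (hT.iterate (n i)).quasiMeasurePreserving.ae_eq h
    filter_upwards [h1] with x hx
    have hx' : f (T^[n i] x) = g (T^[n i] x) := hx
    show f (T^[n i] x) * _ = g (T^[n i] x) * _
    rw [hx']
  rw [e1, integral_congr_ae h]

/-- one coordinate -/
theorem MF_aux_one {T : X → X} (hT : MeasurePreserving T μ μ) {F : Fin (k + 1) → X → ℂ}
    (hF : ∀ j, Measurable (F j)) {b : ℝ} (hb1 : 1 ≤ b) (hb : ∀ j x, ‖F j x‖ ≤ b)
    (i : Fin (k + 1))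
    (hind : ∀ A : Set X, MeasurableSet A →
      MF_aux_P μ T (Function.update F i (A.indicator fun _ => (1 : ℂ))))
    (g : X → ℂ) (hg : Integrable g μ) : MF_aux_P μ T (Function.update F i g) := by
  have hb0 : 0 ≤ b := zero_le_one.trans hb1
  have hP : ∀ g : X → ℂ, MF_aux_P μ T (Function.update F i g) ↔ ∀ ε : ℝ, 0 < ε → ∃ G : ℕ,
      ∀ n : Fin (k + 1) → ℕ, MF_aux_adm G n → ‖MF_aux_D μ T F i n g‖ < ε := by
    intro g
    unfold MF_aux_P
    simp only [MF_aux_D_eq]
  rw [hP]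
  revert hg
  refine fun hg => Integrable.induction (μ := μ) (fun g : X → ℂ => ∀ ε : ℝ, 0 < ε → ∃ G : ℕ,
      ∀ n : Fin (k + 1) → ℕ, MF_aux_adm G n → ‖MF_aux_D μ T F i n g‖ < ε) ?_ ?_ ?_ ?_ hg
  · intro c A hA _ ε hε
    have h1 := (hP _).1 (hind A hA) (ε / (‖c‖ + 1)) (by positivity)
    obtain ⟨G, hG⟩ := h1
    refine ⟨G, fun n hn => ?_⟩
    have h2 := hG n hn
    have e : MF_aux_D μ T F i n (A.indicator fun _ => c) =
        c * MF_aux_D μ T F i n (A.indicator fun _ => (1 : ℂ)) := by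
      have e0 : ∀ x, A.indicator (fun _ => c) x = c * A.indicator (fun _ => (1 : ℂ)) x := by
        intro x
        by_cases hx : x ∈ A
        · rw [Set.indicator_of_mem hx, Set.indicator_of_mem hx, mul_one]
        · rw [Set.indicator_of_notMem hx, Set.indicator_of_notMem hx, mul_zero]
      unfold MF_aux_D
      simp_rw [e0, mul_assoc]
      rw [integral_const_mul, integral_const_mul, mul_sub]
      ring
    rw [e, norm_mul]
    have hc : 0 ≤ ‖c‖ := norm_nonneg c
    have h3 : ‖c‖ * ‖MF_aux_D μ T F i n (A.indicator fun _ => (1 : ℂ))‖ ≤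
        ‖c‖ * (ε / (‖c‖ + 1)) := mul_le_mul_of_nonneg_left h2.le hc
    refine lt_of_le_of_lt h3 ?_
    rw [mul_div_assoc', div_lt_iff₀ (by positivity)]
    nlinarith
  · intro f g _ hf hg h1 h2 ε hε
    obtain ⟨G1, hG1⟩ := h1 (ε / 2) (by positivity)
    obtain ⟨G2, hG2⟩ := h2 (ε / 2) (by positivity)
    refine ⟨max G1 G2, fun n hn => ?_⟩
    have a1 := hG1 n (MF_aux_adm_mono (le_max_left _ _) hn)
    have a2 := hG2 n (MF_aux_adm_mono (le_max_right _ _) hn)
    rw [MF_aux_D_add μ hT hF hb i n hf hg]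
    refine lt_of_le_of_lt (norm_add_le _ _) ?_
    linarith
  · refine isClosed_of_closure_subset fun f hf => ?_
    intro ε hε
    have hBpos : 0 < 2 * b ^ k + 1 := by positivity
    obtain ⟨f', hf', hd⟩ := Metric.mem_closure_iff.1 hf (ε / 2 / (2 * b ^ k + 1)) (by positivity)
    obtain ⟨G, hG⟩ := hf' (ε / 2) (by positivity)
    refine ⟨G, fun n hn => ?_⟩
    have a1 := hG n hn
    have hi : Integrable (⇑f) μ := L1.integrable_coeFn f
    have hi' : Integrable (⇑f') μ := L1.integrable_coeFn f'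
    have e1 : MF_aux_D μ T F i n (⇑f) = MF_aux_D μ T F i n (⇑f') +
        MF_aux_D μ T F i n (⇑f - ⇑f') := by
      rw [← MF_aux_D_add μ hT hF hb i n hi' (hi.sub hi'), add_sub_cancel]
    have h2 := MF_aux_D_le μ hT hF hb0 hb i n (hi.sub hi')
    have h3 : ∫ x, ‖(⇑f - ⇑f') x‖ ∂μ = dist f f' := by
      rw [L1.dist_eq_integral_dist]
      congr 1
      funext x
      rw [dist_eq_norm, Pi.sub_apply]
    rw [h3] at h2
    have h4 : 2 * b ^ k * dist f f' ≤ ε / 2 := by
      have h5 : dist f f' * (2 * b ^ k + 1) ≤ ε / 2 := by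
        rw [lt_div_iff₀ hBpos] at hd
        exact hd.le
      have h6 : 0 ≤ dist f f' := dist_nonneg
      nlinarith
    rw [e1]
    refine lt_of_le_of_lt (norm_add_le _ _) ?_
    linarith
  · intro f g hfg _ h ε hε
    obtain ⟨G, hG⟩ := h ε hε
    refine ⟨G, fun n hn => ?_⟩
    rw [← MF_aux_D_ae μ hT i n hfg]
    exact hG n hn

theorem MF_aux_base {T : X → X} (hT : MeasurePreserving T μ μ) (h : MixOrd μ T k)
    (F : Fin (k + 1) → X → ℂ)
    (hA : ∀ j, ∃ A : Set X, MeasurableSet A ∧ F j = A.indicator fun _ => (1 : ℂ)) :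
    MF_aux_P μ T F := by
  choose A hAm hAF using hA
  intro ε hε
  obtain ⟨G, hG⟩ := h A hAm ε hε
  refine ⟨G, fun n hn => ?_⟩
  have h1 := hG n hn.1 hn.2
  have e1 : ∫ x, ∏ j, F j (T^[n j] x) ∂μ = ((μ.real (⋂ j, T^[n j] ⁻¹' A j) : ℝ) : ℂ) := by
    have e0 : ∀ x, ∏ j, F j (T^[n j] x) =
        (⋂ j, T^[n j] ⁻¹' A j).indicator (fun _ => (1 : ℂ)) x := by
      intro x
      by_cases hx : x ∈ ⋂ j, T^[n j] ⁻¹' A j
      · rw [Set.indicator_of_mem hx]
        refine Finset.prod_eq_one fun j _ => ?_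
        rw [hAF j, Set.indicator_of_mem]
        exact Set.mem_iInter.1 hx j
      · rw [Set.indicator_of_notMem hx]
        rw [Set.mem_iInter, not_forall] at hx
        obtain ⟨j, hj⟩ := hx
        refine Finset.prod_eq_zero (Finset.mem_univ j) ?_
        rw [hAF j, Set.indicator_of_notMem]
        exact hj
    simp_rw [e0]
    rw [integral_indicator_const]
    · simp
    · exact MeasurableSet.iInter fun j => (hT.iterate (n j)).measurable (hAm j)
  have e2 : ∀ j, ∫ x, F j x ∂μ = ((μ.real (A j) : ℝ) : ℂ) := by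
    intro j
    rw [hAF j, integral_indicator_const _ (hAm j)]
    simp
  rw [e1]
  simp_rw [e2]
  rw [← Complex.ofReal_prod, ← Complex.ofReal_sub, Complex.norm_real, Real.norm_eq_abs]
  exact h1

theorem MF_aux_all {T : X → X} (hT : MeasurePreserving T μ μ) (h : MixOrd μ T k) {b : ℝ}
    (hb1 : 1 ≤ b) (s : Finset (Fin (k + 1))) :
    ∀ F : Fin (k + 1) → X → ℂ, (∀ j, Measurable (F j)) → (∀ j x, ‖F j x‖ ≤ b) →
      (∀ j, j ∉ s → ∃ A : Set X, MeasurableSet A ∧ F j = A.indicator fun _ => (1 : ℂ)) →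
      MF_aux_P μ T F := by
  classical
  induction s using Finset.induction_on with
  | empty =>
    intro F _ _ hA
    exact MF_aux_base μ hT h F fun j => hA j (Finset.notMem_empty j)
  | insert i s hi ih =>
    intro F hF hb hA
    have hind1 : ∀ (A : Set X) (x : X), ‖A.indicator (fun _ => (1 : ℂ)) x‖ ≤ b := by
      intro A x
      by_cases hx : x ∈ A
      · rw [Set.indicator_of_mem hx, norm_one]
        exact hb1
      · rw [Set.indicator_of_notMem hx, norm_zero]
        linarith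
    have hmain := MF_aux_one μ hT hF hb1 hb i (fun A hAm => by
      refine ih _ (fun j => ?_) (fun j x => ?_) fun j hj => ?_
      · by_cases hji : j = i
        · subst hji
          rw [Function.update_self]
          exact measurable_const.indicator hAm
        · rw [Function.update_of_ne hji]
          exact hF j
      · by_cases hji : j = i
        · subst hji
          rw [Function.update_self]
          exact hind1 A x
        · rw [Function.update_of_ne hji]
          exact hb j x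
      · by_cases hji : j = i
        · subst hji
          rw [Function.update_self]
          exact ⟨A, hAm, rfl⟩
        · rw [Function.update_of_ne hji]
          exact hA j (by
            rw [Finset.mem_insert, not_or]
            exact ⟨hji, hj⟩)) (F i) ?_
    · rwa [Function.update_eq_self] at hmain
    · exact Integrable.of_bound (hF i).aestronglyMeasurable b
        (Filter.Eventually.of_forall (hb i))

end

theorem mix_fun {X : Type*} [MeasurableSpace X] (μ : Measure X) [IsProbabilityMeasure μ]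
    (T : X → X) (hT : MeasurePreserving T μ μ) (k : ℕ) (h : MixOrd μ T k)
    (F : Fin (k + 1) → X → ℂ) (hF : ∀ j, Measurable (F j)) (b : ℝ) (hb : ∀ j x, ‖F j x‖ ≤ b)
    (ε : ℝ) (hε : 0 < ε) : ∃ G : ℕ, ∀ n : Fin (k + 1) → ℕ, n 0 = 0 →
      (∀ j : Fin k, n j.castSucc + G ≤ n j.succ) →
      ‖∫ x, ∏ j, F j (T^[n j] x) ∂μ - ∏ j, ∫ x, F j x ∂μ‖ < ε := by
  obtain ⟨G, hG⟩ := MF_aux_all μ hT h (le_max_right b 1) Finset.univ F hF
    (fun j x => (hb j x).trans (le_max_left _ _))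
    (fun j hj => absurd (Finset.mem_univ j) hj) ε hε
  exact ⟨G, fun n h0 h1 => hG n ⟨h0, h1⟩⟩

end H567MM
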