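import Pool.Agent.H567R2.MMF.Base
import Pool.Agent.H567R2.MMF.CO
import Pool.Agent.H567R2.MMF.MF
import Pool.Agent.H567R2.MMF.SP
import Pool.Agent.H567R2.MMF.FI

namespace H567MM

open MeasureTheory Filter Topology

theorem H2_aux_eval {M : Type*} [AddCommGroup M] (m : M) :
    Measurable (fun y : Dual M => ((y m : Circle) : ℂ)) := by
  have h : Measurable (fun (y : Dual M) (m : M) => (y m : ℂ)) := comap_measurable _
  exact (measurable_pi_apply m).comp h

theorem H2_aux_meas {X R M : Type*} [MeasurableSpace X] (S : X → X) (hS : Measurable S)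
    [CommRing R] [AddCommGroup M] [Module R M] [Countable M] (φ : X → Rˣ)
    (hφ : ∀ m m' : M, MeasurableSet {x | (φ x : R) • m = m'}) (n : ℕ) :
    ∀ m m' : M, MeasurableSet {x | cv S φ n x • m = m'} := by
  induction n with
  | zero =>
    intro m m'
    simp only [cv, coc, Units.val_one, one_smul]
    exact MeasurableSet.const _
  | succ n ih =>
    intro m m'
    have h : {x | cv S φ (n + 1) x • m = m'} =
        ⋃ m'' : M, (S^[n] ⁻¹' {x | (φ x : R) • m = m''}) ∩ {x | cv S φ n x • m'' = m'} := by
      ext x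
      simp only [Set.mem_ofPred_eq, Set.mem_iUnion, Set.mem_inter_iff, Set.mem_preimage]
      constructor
      · intro hx
        refine ⟨(φ (S^[n] x) : R) • m, rfl, ?_⟩
        rw [← hx]
        simp only [cv, coc, Units.val_mul, mul_smul]
      · rintro ⟨m'', h1, h2⟩
        rw [← h2, ← h1]
        simp only [cv, coc, Units.val_mul, mul_smul]
    rw [h]
    exact MeasurableSet.iUnion fun m'' => ((hS.iterate n) (hφ m m'')).inter (ih m'' m')

theorem H2_of_mix {X R M : Type*} [MeasurableSpace X] (μ : Measure X)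
    [IsProbabilityMeasure μ] (S : X → X) (hS : MeasurePreserving S μ μ)
    [CommRing R] [AddCommGroup M] [Module R M] [Countable M] (φ : X → Rˣ)
    (hφ : ∀ m m' : M, MeasurableSet {x | (φ x : R) • m = m'}) (ν : Measure (Dual M))
    (hν : IsHaarProb ν) (h : MixOrd (μ.prod ν) (skew S φ) 1) (m m' : M) (hm : m ≠ 0) :
    Tendsto (fun n => μ.real {x | cv S φ n x • m = m'}) atTop (𝓝 0) := by
  have := hν.1
  have hT := H567MM.skew_measurePreserving μ S hS φ hφ ν hν
  let F : Fin (1 + 1) → X × Dual M → ℂ :=
    ![fun z => (starRingEnd ℂ) ((z.2 m' : Circle) : ℂ), fun z => ((z.2 m : Circle) : ℂ)]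
  have hFm : ∀ j, Measurable (F j) := by
    intro j
    fin_cases j
    · exact Complex.continuous_conj.measurable.comp ((H2_aux_eval m').comp measurable_snd)
    · exact (H2_aux_eval m).comp measurable_snd
  have hFb : ∀ j x, ‖F j x‖ ≤ 1 := by
    intro j x
    fin_cases j
    · simp [F, Circle.norm_coe]
    · simp [F, Circle.norm_coe]
  have hmix := H567MM.mix_fun (μ.prod ν) (skew S φ) hT 1 h F hFm 1 hFb
  rw [Metric.tendsto_atTop]
  intro ε hε
  obtain ⟨G, hG⟩ := hmix ε hε
  refine ⟨G, fun n hn => ?_⟩
  have h1 := hG ![0, n] rfl (by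
    intro j
    fin_cases j
    simpa using hn)
  -- the second integral vanishes
  have h3 : ∏ j, ∫ z, F j z ∂(μ.prod ν) = 0 := by
    have h4 : ∫ z, F 1 z ∂(μ.prod ν) = 0 := by
      have h5 : ∫ z, F 1 z ∂(μ.prod ν) = ∫ x, ∫ y, ((y m : Circle) : ℂ) ∂ν ∂μ := by
        rw [integral_prod]
        · rfl
        · apply Integrable.of_bound (hFm 1).aestronglyMeasurable 1
          exact Filter.Eventually.of_forall fun z => hFb 1 z
      rw [h5, H567MM.int_char ν hν m hm]
      simp
    exact Finset.prod_eq_zero (Finset.mem_univ 1) h4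
  have hmeas := H2_aux_meas S hS.measurable φ hφ n m m'
  have h2 : ∫ z, ∏ j, F j ((skew S φ)^[(![0, n] : Fin 2 → ℕ) j] z) ∂(μ.prod ν) =
      ((μ.real {x | cv S φ n x • m = m'} : ℝ) : ℂ) := by
    have hint : Integrable (fun z : X × Dual M =>
        ∏ j, F j ((skew S φ)^[(![0, n] : Fin 2 → ℕ) j] z)) (μ.prod ν) := by
      apply Integrable.of_bound (C := 1)
      · apply Measurable.aestronglyMeasurable
        apply Finset.measurable_prod
        intro j _
        exact (hFm j).comp (hT.measurable.iterate _)
      · refine Filter.Eventually.of_forall fun z => ?_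
        rw [norm_prod]
        exact Finset.prod_le_one (fun j _ => norm_nonneg _) (fun j _ => hFb j _)
    rw [integral_prod _ hint]
    have h6 : ∀ x : X, ∫ y, ∏ j, F j ((skew S φ)^[(![0, n] : Fin 2 → ℕ) j] (x, y)) ∂ν =
        {x | cv S φ n x • m = m'}.indicator (fun _ => (1 : ℂ)) x := by
      intro x
      have h7 : ∀ y : Dual M, ∏ j, F j ((skew S φ)^[(![0, n] : Fin 2 → ℕ) j] (x, y)) =
          ((y (cv S φ n x • m - m') : Circle) : ℂ) := by
        intro y
        rw [Fin.prod_univ_two]
        simp only [F, Matrix.cons_val_zero, Matrix.cons_val_one, Function.iterate_zero, id_eq,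
          H567MM.skew_iterate]
        rw [AddChar.map_sub_eq_div]
        have h8 : (act (coc S φ n x) y) m = y (cv S φ n x • m) := rfl
        have h9 : (act (coc S φ 0 x) y) m' = y m' := by
          change y (((1 : Rˣ) : R) • m') = y m'
          rw [Units.val_one, one_smul]
        simp only [h8, h9]
        rw [Circle.coe_div, div_eq_mul_inv, mul_comm]
        congr 1
        rw [← Circle.coe_inv_eq_conj]
        simp
      simp only [h7]
      by_cases hx : cv S φ n x • m = m'
      · rw [Set.indicator_of_mem (by exact hx)]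
        simp [hx]
      · rw [Set.indicator_of_notMem (by exact hx)]
        exact H567MM.int_char ν hν _ (sub_ne_zero.2 hx)
    simp only [h6]
    rw [integral_indicator hmeas]
    simp
  rw [h2, h3, sub_zero] at h1
  rw [Real.dist_eq, sub_zero, abs_of_nonneg measureReal_nonneg]
  have : ‖((μ.real {x | cv S φ n x • m = m'} : ℝ) : ℂ)‖ = μ.real {x | cv S φ n x • m = m'} := by
    rw [Complex.norm_real, Real.norm_of_nonneg measureReal_nonneg]
  rw [← this]
  exact h1

end H567MM
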