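import Pool.Agent.H567R2.MMF.Base

/-! SM: second moment (helper64) -/

namespace H567MM

open MeasureTheory Filter Topology

/-- the combinatorial estimate -/
theorem SM_sum (M : ℕ) (a : ℕ → ℕ → ℝ) (q : ℕ → ℝ) (hq0 : ∀ n, 0 ≤ q n)
    (h1 : ∀ t, a t t ≤ 1) (h2 : ∀ t t', t < t' → t' < M → a t t' ≤ q (t' - t))
    (hs : ∀ t t', a t t' = a t' t) :
    ∑ t ∈ Finset.range M, ∑ t' ∈ Finset.range M, a t t' ≤
      M * (1 + 2 * ∑ n ∈ Finset.range M, q n) := by
  have hrow : ∀ t ∈ Finset.range M, ∑ t' ∈ Finset.range M, a t t' ≤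
      1 + 2 * ∑ n ∈ Finset.range M, q n := by
    intro t ht
    have ht' := Finset.mem_range.1 ht
    have hb : ∀ t' ∈ Finset.range M, a t t' ≤ (if t' = t then 1 else 0) +
        (if t' < t then q (t - t') else 0) + (if t < t' then q (t' - t) else 0) := by
      intro t' ht2
      have ht2' := Finset.mem_range.1 ht2
      rcases lt_trichotomy t' t with h | h | h
      · rw [if_neg h.ne, if_pos h, if_neg h.asymm, hs]
        simpa using h2 t' t h ht'
      · rw [if_pos h, if_neg (by omega), if_neg (by omega), h]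
        simpa using h1 t
      · rw [if_neg h.ne', if_neg h.asymm, if_pos h]
        simpa using h2 t t' h ht2'
    refine (Finset.sum_le_sum hb).trans ?_
    rw [Finset.sum_add_distrib, Finset.sum_add_distrib]
    have e1 : ∑ t' ∈ Finset.range M, (if t' = t then (1 : ℝ) else 0) = 1 := by
      rw [Finset.sum_ite_eq' (Finset.range M) t, if_pos ht]
    have e2 : ∑ t' ∈ Finset.range M, (if t' < t then q (t - t') else 0) ≤
        ∑ n ∈ Finset.range M, q n := by
      rw [← Finset.sum_filter]
      have hinj : Set.InjOn (fun t' => t - t')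
          ((Finset.range M).filter fun t' => t' < t : Finset ℕ) := by
        intro x hx y hy hxy
        simp only [Finset.coe_filter, Set.mem_ofPred_eq] at hx hy
        simp only at hxy
        omega
      rw [← Finset.sum_image (f := q) hinj]
      apply Finset.sum_le_sum_of_subset_of_nonneg
      · intro n hn
        rw [Finset.mem_image] at hn
        obtain ⟨x, hx, rfl⟩ := hn
        rw [Finset.mem_filter, Finset.mem_range] at hx
        rw [Finset.mem_range]
        omega
      · intro n _ _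
        exact hq0 n
    have e3 : ∑ t' ∈ Finset.range M, (if t < t' then q (t' - t) else 0) ≤
        ∑ n ∈ Finset.range M, q n := by
      rw [← Finset.sum_filter]
      have hinj : Set.InjOn (fun t' => t' - t)
          ((Finset.range M).filter fun t' => t < t' : Finset ℕ) := by
        intro x hx y hy hxy
        simp only [Finset.coe_filter, Set.mem_ofPred_eq] at hx hy
        simp only at hxy
        omega
      rw [← Finset.sum_image (f := q) hinj]
      apply Finset.sum_le_sum_of_subset_of_nonneg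
      · intro n hn
        rw [Finset.mem_image] at hn
        obtain ⟨x, hx, rfl⟩ := hn
        rw [Finset.mem_filter, Finset.mem_range] at hx
        rw [Finset.mem_range]
        omega
      · intro n _ _
        exact hq0 n
    linarith
  calc ∑ t ∈ Finset.range M, ∑ t' ∈ Finset.range M, a t t'
      ≤ ∑ _t ∈ Finset.range M, (1 + 2 * ∑ n ∈ Finset.range M, q n) := Finset.sum_le_sum hrow
    _ = M * (1 + 2 * ∑ n ∈ Finset.range M, q n) := by
        rw [Finset.sum_const, Finset.card_range, nsmul_eq_mul]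

/-- Cauchy-Schwarz for a sum of indicators -/
theorem SM_cs {X : Type*} [MeasurableSpace X] (μ : Measure X) [IsProbabilityMeasure μ]
    (M : ℕ) (A : ℕ → Set X) (hA : ∀ t, MeasurableSet (A t)) :
    (∑ t ∈ Finset.range M, μ.real (A t)) ^ 2 ≤
      ∑ t ∈ Finset.range M, ∑ t' ∈ Finset.range M, μ.real (A t ∩ A t') := by
  set c : ℝ := ∑ t ∈ Finset.range M, μ.real (A t) with hc
  have key : 0 ≤ ∫ x, (∑ t ∈ Finset.range M, (A t).indicator (fun _ => (1 : ℝ)) x - c) ^ 2 ∂μ :=
    integral_nonneg fun x => sq_nonneg _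
  have hfun : ∀ x, (∑ t ∈ Finset.range M, (A t).indicator (fun _ => (1 : ℝ)) x - c) ^ 2 =
      (∑ t ∈ Finset.range M, ∑ t' ∈ Finset.range M,
        (A t ∩ A t').indicator (fun _ => (1 : ℝ)) x -
        2 * c * ∑ t ∈ Finset.range M, (A t).indicator (fun _ => (1 : ℝ)) x) + c ^ 2 := by
    intro x
    have e1 : ∑ t ∈ Finset.range M, ∑ t' ∈ Finset.range M,
        (A t ∩ A t').indicator (fun _ => (1 : ℝ)) x =
        (∑ t ∈ Finset.range M, (A t).indicator (fun _ => (1 : ℝ)) x) ^ 2 := by
      rw [sq, Finset.sum_mul_sum]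
      refine Finset.sum_congr rfl fun t _ => Finset.sum_congr rfl fun t' _ => ?_
      by_cases h1 : x ∈ A t <;> by_cases h2 : x ∈ A t' <;> simp [h1, h2]
    rw [e1]
    ring
  have hi : ∀ B : Set X, MeasurableSet B → Integrable (B.indicator fun _ => (1 : ℝ)) μ :=
    fun B hB => (integrable_const (1 : ℝ)).indicator hB
  have hint : ∀ B : Set X, MeasurableSet B → ∫ x, B.indicator (fun _ => (1 : ℝ)) x ∂μ = μ.real B := by
    intro B hB
    rw [integral_indicator hB]
    simp
  have i1 : Integrable (fun x => ∑ t ∈ Finset.range M, ∑ t' ∈ Finset.range M,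
        (A t ∩ A t').indicator (fun _ => (1 : ℝ)) x) μ :=
    integrable_finsetSum _ fun t _ => integrable_finsetSum _ fun t' _ =>
      hi _ ((hA t).inter (hA t'))
  have i2 : Integrable (fun x => ∑ t ∈ Finset.range M, (A t).indicator (fun _ => (1 : ℝ)) x) μ :=
    integrable_finsetSum _ fun t _ => hi _ (hA t)
  have i4 : Integrable (fun x => 2 * c * ∑ t ∈ Finset.range M,
      (A t).indicator (fun _ => (1 : ℝ)) x) μ := i2.const_mul _
  have i3 : Integrable (fun x => ∑ t ∈ Finset.range M, ∑ t' ∈ Finset.range M,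
        (A t ∩ A t').indicator (fun _ => (1 : ℝ)) x - 2 * c * ∑ t ∈ Finset.range M,
        (A t).indicator (fun _ => (1 : ℝ)) x) μ := i1.sub i4
  simp only [hfun] at key
  rw [integral_add i3 (integrable_const _),
    integral_sub i1 i4, integral_const_mul, integral_finsetSum _ (fun t _ =>
      integrable_finsetSum _ fun t' _ => hi _ ((hA t).inter (hA t'))),
    integral_finsetSum _ (fun t _ => hi _ (hA t))] at key
  have e2 : ∑ t ∈ Finset.range M, ∫ x, ∑ t' ∈ Finset.range M,
      (A t ∩ A t').indicator (fun _ => (1 : ℝ)) x ∂μ =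
      ∑ t ∈ Finset.range M, ∑ t' ∈ Finset.range M, μ.real (A t ∩ A t') := by
    refine Finset.sum_congr rfl fun t _ => ?_
    rw [integral_finsetSum _ (fun t' _ => hi _ ((hA t).inter (hA t')))]
    exact Finset.sum_congr rfl fun t' _ => hint _ ((hA t).inter (hA t'))
  have e3 : ∑ t ∈ Finset.range M, ∫ x, (A t).indicator (fun _ => (1 : ℝ)) x ∂μ = c := by
    rw [hc]
    exact Finset.sum_congr rfl fun t _ => hint _ (hA t)
  rw [e2, e3] at key
  simp only [integral_const, probReal_univ, smul_eq_mul, one_mul] at key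
  nlinarith

theorem second_moment {X : Type*} [MeasurableSpace X] (μ : Measure X) [IsProbabilityMeasure μ]
    (S : X → X) (hS : MeasurePreserving S μ μ) (E : Set X) (hE : MeasurableSet E) (M : ℕ)
    (q : ℕ → ℝ) (hq : ∀ t t', t < t' → t' < M →
      μ.real (S^[t] ⁻¹' E ∩ S^[t'] ⁻¹' E) ≤ q (t' - t)) (hq0 : ∀ n, 0 ≤ q n) :
    μ.real E ^ 2 * M ≤ 1 + 2 * ∑ n ∈ Finset.range M, q n := by
  rcases Nat.eq_zero_or_pos M with hM | hM
  · rw [hM]
    simp
  have hM' : (0 : ℝ) < M := by exact_mod_cast hM
  have hm : ∀ t, MeasurableSet (S^[t] ⁻¹' E) := fun t => (hS.iterate t).measurable hE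
  have h1 := SM_cs μ M (fun t => S^[t] ⁻¹' E) hm
  have h2 : ∑ t ∈ Finset.range M, μ.real (S^[t] ⁻¹' E) = M * μ.real E := by
    have : ∀ t ∈ Finset.range M, μ.real (S^[t] ⁻¹' E) = μ.real E := by
      intro t _
      unfold Measure.real
      rw [(hS.iterate t).measure_preimage hE.nullMeasurableSet]
    rw [Finset.sum_congr rfl this, Finset.sum_const, Finset.card_range, nsmul_eq_mul]
  rw [h2] at h1
  have h3 := SM_sum M (fun t t' => μ.real (S^[t] ⁻¹' E ∩ S^[t'] ⁻¹' E)) q hq0
    (fun t => measureReal_le_one) hq (fun t t' => by rw [Set.inter_comm])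
  have h4 : (M : ℝ) * (μ.real E ^ 2 * M) ≤ M * (1 + 2 * ∑ n ∈ Finset.range M, q n) := by
    calc (M : ℝ) * (μ.real E ^ 2 * M) = (M * μ.real E) ^ 2 := by ring
      _ ≤ _ := h1.trans h3
  exact le_of_mul_le_mul_left h4 hM'

end H567MM
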