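import Pool.Agent.H567R2.MMF.Base
import Pool.Agent.H567R2.MMF.CO
import Pool.Agent.H567R2.MMF.CA
import Pool.Agent.H567R2.MMF.FC
import Pool.Agent.H567R2.MMF.SM
import Pool.Agent.H567R2.MMF.EL
import Pool.Agent.H567R2.MMF.BD
import Pool.Agent.H567R2.MMF.CL

/-! RS: the theorem for fields. -/

namespace H567MM

open MeasureTheory Filter Topology

theorem RS_aux_meas {X K : Type*} [MeasurableSpace X] (S : X → X) (hS : Measurable S)
    [Field K] [Countable K] (φ : X → Kˣ) (hφ : ∀ g : Kˣ, MeasurableSet {x | φ x = g})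
    {s : ℕ} (w : Fin s → K) (n : Fin s → ℕ) :
    MeasurableSet {x | ∑ i, w i * cv S φ (n i) x = 0} := by
  letI : MeasurableSpace Kˣ := ⊤
  haveI : DiscreteMeasurableSpace Kˣ := ⟨fun _ => trivial⟩
  haveI : Countable Kˣ := Units.val_injective.countable
  have hφm : Measurable φ := by
    apply measurable_to_countable'
    intro g
    exact hφ g
  have h1 : ∀ m, Measurable (coc S φ m) := fun m => coc_measurable S hS φ hφm m
  have h2 : Measurable (fun x => fun i : Fin s => coc S φ (n i) x) :=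
    measurable_pi_lambda _ (fun i => h1 (n i))
  have h3 : MeasurableSet {u : Fin s → Kˣ | ∑ i, w i * ((u i : Kˣ) : K) = 0} :=
    (Set.to_countable _).measurableSet
  exact h2 h3

theorem RS_aux_one {X K : Type*} [MeasurableSpace X] (μ : Measure X)
    [Field K] (S : X → X) (φ : X → Kˣ) (w : Fin 1 → K) (hw : w ≠ 0) (ε : ℝ) (hε : 0 < ε) :
    ∃ G : ℕ, ∀ n : Fin 1 → ℕ, Gaps G n →
      μ.real {x | ∑ i, w i * cv S φ (n i) x = 0} < ε := by
  refine ⟨0, fun n _ => ?_⟩
  have hw0 : w 0 ≠ 0 := by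
    intro h
    apply hw
    funext i
    rw [Subsingleton.elim i 0, h]
    rfl
  have : {x | ∑ i, w i * cv S φ (n i) x = 0} = (∅ : Set X) := by
    ext x
    simp only [Set.mem_ofPred_eq, Set.mem_empty_iff_false, iff_false]
    rw [Fin.sum_univ_one]
    exact mul_ne_zero hw0 (Units.ne_zero _)
  rw [this, measureReal_empty]
  exact hε

theorem RS_aux_step {X K : Type*} [MeasurableSpace X] (μ : Measure X)
    [IsProbabilityMeasure μ] (S : X → X) (hS : MeasurePreserving S μ μ) (hmix : MixOrd μ S 1)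
    [Field K] [Countable K] (φ : X → Kˣ) (hφ : ∀ g : Kˣ, MeasurableSet {x | φ x = g})
    (H2 : ∀ g : Kˣ, Tendsto (fun n => μ.real {x | coc S φ n x = g}) atTop (𝓝 0))
    (s : ℕ) (IH : ∀ v : Fin (s + 1) → K, v ≠ 0 → ∀ ε : ℝ, 0 < ε → ∃ G : ℕ,
      ∀ n : Fin (s + 1) → ℕ, Gaps G n → μ.real {x | ∑ i, v i * cv S φ (n i) x = 0} < ε)
    (w : Fin (s + 2) → K) (hw : ∀ i, w i ≠ 0) (ε : ℝ) (hε : 0 < ε) :
    ∃ G : ℕ, ∀ n : Fin (s + 2) → ℕ, Gaps G n →
      μ.real {x | ∑ i, w i * cv S φ (n i) x = 0} < ε := by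
  by_contra hcon
  push Not at hcon
  letI : MeasurableSpace Kˣ := ⊤
  haveI : DiscreteMeasurableSpace Kˣ := ⟨fun _ => trivial⟩
  haveI : Countable Kˣ := Units.val_injective.countable
  have hφm : Measurable φ := by
    apply measurable_to_countable'
    intro g
    exact hφ g
  have hcm : ∀ m, Measurable (coc S φ m) := fun m => coc_measurable S hS.measurable φ hφm m
  set q : ℕ → ℝ := fun n => (μ.prod μ).real {z | coc S φ n z.1 = coc S φ n z.2} with hq
  -- the main claim
  have key : ∀ N₀ : ℕ, ∃ N ≥ N₀, ε ^ 2 / 4 * N ≤ ∑ n ∈ Finset.range N, q n := by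
    intro N₀
    obtain ⟨M₁, hM₁⟩ := exists_nat_ge (8 / ε ^ 2)
    set M : ℕ := max N₀ M₁ with hM
    refine ⟨M, le_max_left _ _, ?_⟩
    have hMε : 8 ≤ ε ^ 2 * M := by
      have h1 : 8 / ε ^ 2 ≤ M := hM₁.trans (by exact_mod_cast le_max_right _ _)
      have h2 : 0 < ε ^ 2 := by positivity
      rw [div_le_iff₀ h2] at h1
      linarith
    set η : ℝ := 1 / (4 * ((M : ℝ) + 1)) with hη
    have hηpos : 0 < η := by positivity
    have hBD : ∀ t t' : ℕ, ∃ G : ℕ, ∀ n : Fin (s + 2) → ℕ, Gaps G n → μ.real {x |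
        ∑ i : Fin (s + 1), w i.succ * br S φ t t' (S^[n i.succ] x) (S^[n 0] x) *
          cv S φ (n i.succ) x = 0 ∧
        (fun i : Fin (s + 1) => w i.succ * br S φ t t' (S^[n i.succ] x) (S^[n 0] x)) ≠ 0} < η :=
      fun t t' => bad_small μ S hS φ hφ IH w t t' η hηpos
    choose GB hGB using hBD
    have hCL : ∀ r : ℕ, ∃ N : ℕ, ∀ n : ℕ, N ≤ n →
        μ.real {x | coc S φ r x = coc S φ r (S^[n] x)} <
          (μ.prod μ).real {z | coc S φ r z.1 = coc S φ r z.2} + η :=
      fun r => collision_limit μ S hS hmix (coc S φ r)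
        (fun g => hcm r (measurableSet_singleton g)) η hηpos
    choose NC hNC using hCL
    set G : ℕ := (∑ t ∈ Finset.range M, ∑ t' ∈ Finset.range M, GB t t') +
      ∑ r ∈ Finset.range M, NC r with hG
    have hGB_le : ∀ t t', t < M → t' < M → GB t t' ≤ G := by
      intro t t' ht ht'
      have h1 : GB t t' ≤ ∑ t' ∈ Finset.range M, GB t t' :=
        Finset.single_le_sum (f := fun t' => GB t t') (fun _ _ => Nat.zero_le _)
          (Finset.mem_range.2 ht')
      have h2 : ∑ t' ∈ Finset.range M, GB t t' ≤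
          ∑ t ∈ Finset.range M, ∑ t' ∈ Finset.range M, GB t t' :=
        Finset.single_le_sum (f := fun t => ∑ t' ∈ Finset.range M, GB t t')
          (fun _ _ => Nat.zero_le _) (Finset.mem_range.2 ht)
      exact (h1.trans h2).trans (Nat.le_add_right _ _)
    have hNC_le : ∀ r, r < M → NC r ≤ G := by
      intro r hr
      have h1 : NC r ≤ ∑ r ∈ Finset.range M, NC r :=
        Finset.single_le_sum (f := fun r => NC r) (fun _ _ => Nat.zero_le _)
          (Finset.mem_range.2 hr)
      exact h1.trans (Nat.le_add_left _ _)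
    obtain ⟨n, hn, hnε⟩ := hcon G
    set E : Set X := {x | ∑ i, w i * cv S φ (n i) x = 0} with hE
    have hEm : MeasurableSet E := RS_aux_meas S hS.measurable φ hφ w n
    have hn01 : n 0 + G ≤ n 1 := hn 0 1 (by simp)
    have hmono : ∀ G', G' ≤ G → Gaps G' n := fun G' h' i j hij =>
      (Nat.add_le_add_left h' _).trans (hn i j hij)
    have hpair : ∀ t t', t < t' → t' < M →
        μ.real (S^[t] ⁻¹' E ∩ S^[t'] ⁻¹' E) ≤ q (t' - t) + 2 * η := by
      intro t t' htt htM
      set r := t' - t with hr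
      have hrM : r < M := by omega
      set A : Set X := {x | coc S φ r x = coc S φ r (S^[n 1 - n 0] x)} with hA
      have hAm : MeasurableSet A := by
        have hm2 : Measurable (fun x => (coc S φ r x, coc S φ r (S^[n 1 - n 0] x))) :=
          (hcm r).prodMk ((hcm r).comp (hS.measurable.iterate _))
        have hm3 : MeasurableSet {u : Kˣ × Kˣ | u.1 = u.2} := (Set.to_countable _).measurableSet
        exact hm2 hm3
      set B : Set X := {x |
        ∑ i : Fin (s + 1), w i.succ * br S φ t t' (S^[n i.succ] x) (S^[n 0] x) *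
          cv S φ (n i.succ) x = 0 ∧
        (fun i : Fin (s + 1) => w i.succ * br S φ t t' (S^[n i.succ] x) (S^[n 0] x)) ≠ 0} with hB
      have hsub : S^[t] ⁻¹' E ∩ S^[t'] ⁻¹' E ⊆ (S^[n 0 + t] ⁻¹' A) ∪ B := by
        intro x hx
        rcases elimination S φ x w hw n t t' htt hx.1 hx.2 with h | h
        · left
          change coc S φ r (S^[n 0 + t] x) = coc S φ r (S^[n 1 - n 0] (S^[n 0 + t] x))
          rw [← Function.iterate_add_apply S (n 1 - n 0) (n 0 + t),
            show n 1 - n 0 + (n 0 + t) = n 1 + t by omega, Function.iterate_add_apply S (n 0) t,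
            Function.iterate_add_apply S (n 1) t]
          exact h
        · right
          exact h
      have h1 : μ.real (S^[n 0 + t] ⁻¹' A) = μ.real A :=
        (hS.iterate (n 0 + t)).measureReal_preimage hAm.nullMeasurableSet
      have h2 : μ.real A < q r + η := hNC r _ (by have := hNC_le r hrM; omega)
      have h3 : μ.real B < η := hGB t t' n (hmono _ (hGB_le t t' (htt.trans htM) htM))
      calc μ.real (S^[t] ⁻¹' E ∩ S^[t'] ⁻¹' E) ≤ μ.real ((S^[n 0 + t] ⁻¹' A) ∪ B) :=
            measureReal_mono hsub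
        _ ≤ μ.real (S^[n 0 + t] ⁻¹' A) + μ.real B := measureReal_union_le _ _
        _ ≤ q r + 2 * η := by rw [h1]; linarith
    have hsm := second_moment μ S hS E hEm M (fun n => q n + 2 * η) hpair
      (fun n => by have : 0 ≤ q n := measureReal_nonneg; positivity)
    rw [Finset.sum_add_distrib, Finset.sum_const, Finset.card_range, nsmul_eq_mul] at hsm
    have h4 : (M : ℝ) * (2 * η) ≤ 1 / 2 := by
      rw [hη]
      have : (0:ℝ) < 4 * ((M : ℝ) + 1) := by positivity
      rw [show (M : ℝ) * (2 * (1 / (4 * ((M : ℝ) + 1)))) = (2 * M) / (4 * ((M : ℝ) + 1)) by ring,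
        div_le_iff₀ this]
      linarith
    have h5 : ε ^ 2 * M ≤ μ.real E ^ 2 * M := by
      apply mul_le_mul_of_nonneg_right _ (Nat.cast_nonneg M)
      exact pow_le_pow_left₀ hε.le hnε 2
    linarith
  obtain ⟨f, hf, l, p, hp, hpl⟩ := collision_const μ S hS hmix φ hφm (ε ^ 2 / 4) (by positivity) key
  obtain ⟨G, hG⟩ := final_const μ S hS φ f hf l p (fun g => hp (measurableSet_singleton g)) hpl H2
    w (fun h => hw 0 (by rw [h]; rfl)) ε hε
  obtain ⟨n, hn, hnε⟩ := hcon G
  exact absurd (hG n hn) (not_lt.2 hnε)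

theorem relation_small {X K : Type*} [MeasurableSpace X] (μ : Measure X)
    [IsProbabilityMeasure μ] (S : X → X) (hS : MeasurePreserving S μ μ) (hmix : MixOrd μ S 1)
    [Field K] [Countable K] (φ : X → Kˣ) (hφ : ∀ g : Kˣ, MeasurableSet {x | φ x = g})
    (H2 : ∀ g : Kˣ, Tendsto (fun n => μ.real {x | coc S φ n x = g}) atTop (𝓝 0))
    (s : ℕ) (w : Fin s → K) (hw : w ≠ 0) (ε : ℝ) (hε : 0 < ε) :
    ∃ G : ℕ, ∀ n : Fin s → ℕ, Gaps G n →
      μ.real {x | ∑ i, w i * cv S φ (n i) x = 0} < ε := by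
  suffices h : ∀ s : ℕ, ∀ w : Fin (s + 1) → K, w ≠ 0 → ∀ ε : ℝ, 0 < ε → ∃ G : ℕ,
      ∀ n : Fin (s + 1) → ℕ, Gaps G n → μ.real {x | ∑ i, w i * cv S φ (n i) x = 0} < ε by
    cases s with
    | zero => exact absurd (Subsingleton.elim w 0) hw
    | succ s => exact h s w hw ε hε
  intro s
  induction s with
  | zero =>
    intro w hw ε hε
    exact RS_aux_one μ S φ w hw ε hε
  | succ s IH =>
    intro w hw ε hε
    by_cases hall : ∀ i, w i ≠ 0
    · exact RS_aux_step μ S hS hmix φ hφ H2 s IH w hall ε hε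
    · push Not at hall
      obtain ⟨i, hi⟩ := hall
      have hw' : (fun j => w (i.succAbove j)) ≠ 0 := by
        intro h
        apply hw
        funext j
        by_cases hj : j = i
        · rw [hj, hi]; rfl
        · obtain ⟨k, hk⟩ := Fin.exists_succAbove_eq hj
          rw [← hk]
          exact congrFun h k
      obtain ⟨G, hG⟩ := IH (fun j => w (i.succAbove j)) hw' ε hε
      refine ⟨G, fun n hn => ?_⟩
      have h1 := hG (fun j => n (i.succAbove j)) (fun a b hab =>
        hn _ _ (Fin.strictMono_succAbove i hab))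
      have h2 : {x | ∑ j, w j * cv S φ (n j) x = 0} =
          {x | ∑ j, w (i.succAbove j) * cv S φ (n (i.succAbove j)) x = 0} := by
        ext x
        simp only [Set.mem_ofPred_eq]
        rw [Fin.sum_univ_succAbove _ i, hi, zero_mul, zero_add]
      rw [h2]
      exact h1

end H567MM
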