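import Pool.Agent.H567R2.MMF.Base
import Pool.Agent.H567R2.MMF.H2
import Pool.Agent.H567R2.MMF.MS
import Pool.Agent.H567R2.MMF.TM
import Pool.Agent.H567R2.MMF.FF
import Pool.Agent.H567R2.MMF.SP
import Pool.Agent.H567R2.MMF.CO

/-! MA: assembly of the main theorem. -/

namespace H567MM

open MeasureTheory Filter Topology

theorem MA_aux_base {X R M : Type*} [MeasurableSpace X] (μ : Measure X)
    [IsProbabilityMeasure μ] (S : X → X) (hS : MeasurePreserving S μ μ)
    [CommRing R] [AddCommGroup M] [Module R M] (φ : X → Rˣ) (ν : Measure (Dual M))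
    [IsProbabilityMeasure ν] (k : ℕ)
    (h : MixOrd (μ.prod ν) (skew (M := M) S φ) k) : MixOrd μ S k := by
  intro A hA ε hε
  obtain ⟨G, hG⟩ := h (fun j => Prod.fst ⁻¹' (A j)) (fun j => measurable_fst (hA j)) ε hε
  refine ⟨G, fun n h0 hn => ?_⟩
  have := hG n h0 hn
  have hfst : MeasurePreserving (Prod.fst : X × Dual M → X) (μ.prod ν) μ := measurePreserving_fst
  have e1 : (⋂ j, (skew (M := M) S φ)^[n j] ⁻¹' (Prod.fst ⁻¹' (A j)))
      = Prod.fst ⁻¹' (⋂ j, S^[n j] ⁻¹' (A j)) := by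
    ext ⟨x, y⟩
    simp only [Set.mem_iInter, Set.mem_preimage, skew_iterate]
  have hm : MeasurableSet (⋂ j, S^[n j] ⁻¹' (A j)) :=
    MeasurableSet.iInter fun j => (hS.iterate (n j)).measurable (hA j)
  have e2 : ∀ B : Set X, MeasurableSet B →
      (μ.prod ν).real (Prod.fst ⁻¹' B) = μ.real B := by
    intro B hB
    simp only [Measure.real]
    rw [hfst.measure_preimage hB.nullMeasurableSet]
  rw [e1, e2 _ hm] at this
  rw [Finset.prod_congr rfl (fun j _ => e2 (A j) (hA j))] at this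
  exact this

theorem main {X R M : Type*} [MeasurableSpace X] (μ : Measure X)
    [IsProbabilityMeasure μ] (S : X → X) (hS : MeasurePreserving S μ μ)
    [CommRing R] [IsNoetherianRing R] [AddCommGroup M] [Module R M] [Countable M] (φ : X → Rˣ)
    (hφ : ∀ m m' : M, MeasurableSet {x | (φ x : R) • m = m'}) (ν : Measure (Dual M))
    (hν : IsHaarProb ν) (k : ℕ) (hk : MixOrd μ S k)
    (h : MixOrd (μ.prod ν) (skew (M := M) S φ) 1) : MixOrd (μ.prod ν) (skew (M := M) S φ) k := by
  have : IsProbabilityMeasure ν := hν.1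
  have hmix : MixOrd μ S 1 := MA_aux_base μ S hS φ ν 1 h
  have H2 : ∀ m m' : M, m ≠ 0 →
      Tendsto (fun n => μ.real {x | cv S φ n x • m = m'}) atTop (𝓝 0) :=
    fun m m' hm => H2_of_mix μ S hS φ hφ ν hν h m m' hm
  have hsmall := module_small μ S hS hmix φ hφ H2 (k + 1)
  exact mix_of_ten μ ν (skew (M := M) S φ) (skew_measurePreserving μ S hS φ hφ ν hν) k
    (fun A m hA ε hε => tensor_mix μ S hS φ hφ ν hν k hk hsmall A hA m ε hε)

end H567MM
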